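import Pool.Agent.P.MP_05c0aa_nt.Den

/-! Automata reading base `k` digits, and densities along arithmetic progressions. -/

namespace Pool.Agent.P.MP_05c0aa_nt

open Finset

variable {S : Type} {k : ℕ} {σ : ℕ → S} {a φ : ℕ → Prop}

/-- `σ n` is the state after reading the digits of `n`, most significant first -/
def Aut (k : ℕ) (σ : ℕ → S) : Prop :=
  ∀ n n' d, d < k → σ n = σ n' → σ (k * n + d) = σ (k * n' + d)

/-- `φ` is determined by the state -/
def Dz (σ : ℕ → S) (φ : ℕ → Prop) : Prop := ∀ y y', σ y = σ y' → φ y → φ y'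

/-- `φ` is determined by the last `r` digits and the state before them -/
def Det (k : ℕ) (σ : ℕ → S) (r : ℕ) (φ : ℕ → Prop) : Prop := ∀ ρ < k ^ r, Dz σ (ap φ (k ^ r) ρ)

/-- the set of states of `φ` -/
def kerT (σ : ℕ → S) (φ : ℕ → Prop) : S → Prop := fun s => ∃ y, σ y = s ∧ φ y

lemma Dz.iff (h : Dz σ φ) (y : ℕ) : φ y ↔ kerT σ φ (σ y) :=
  ⟨fun hy => ⟨y, rfl, hy⟩, fun ⟨y', h1, h2⟩ => h y' y h1 h2⟩

lemma Dz.ext {ψ : ℕ → Prop} (h : Dz σ φ) (h' : Dz σ ψ) (e : kerT σ φ = kerT σ ψ) : φ = ψ := by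
  funext y
  rw [h.iff, h'.iff, e]

lemma finite_Dz [Finite S] (σ : ℕ → S) : {φ | Dz σ φ}.Finite :=
  Set.Finite.of_finite_image (f := kerT σ) (Set.toFinite _) fun _ h _ h' e => Dz.ext h h' e

lemma pigeon (T : Type) [Finite T] : ∃ C : ℕ, ∀ F : ℕ → T, ∃ i j, i < j ∧ j ≤ C ∧ F i = F j := by
  have := Fintype.ofFinite T
  refine ⟨Fintype.card T, fun F => ?_⟩
  obtain ⟨i, j, h1, h2⟩ := Fintype.exists_ne_map_eq_of_card_lt
    (fun i : Fin (Fintype.card T + 1) => F i) (by simp)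
  rcases lt_or_gt_of_ne (Fin.val_ne_of_ne h1) with h | h
  · exact ⟨i, j, h, by omega, h2⟩
  · exact ⟨j, i, h, by omega, h2.symm⟩

/-- some value is taken for arbitrarily large arguments -/
lemma pigeon_inf {T : Type} [Finite T] (F : ℕ → T) : ∃ t, ∀ N, ∃ n, N ≤ n ∧ F n = t := by
  obtain ⟨t, ht⟩ := Finite.exists_infinite_fiber F
  refine ⟨t, fun N => ?_⟩
  obtain ⟨n, h1, h2⟩ := (Set.infinite_coe_iff.1 ht).exists_gt N
  exact ⟨n, h2.le, h1⟩

lemma Aut.pow (h : Aut k σ) (r : ℕ) {y y' ρ : ℕ} (hρ : ρ < k ^ r) (e : σ y = σ y') :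
    σ (k ^ r * y + ρ) = σ (k ^ r * y' + ρ) := by
  induction r generalizing ρ with
  | zero =>
    obtain rfl : ρ = 0 := by simpa using hρ
    simpa using e
  | succ r ih =>
    have hk : 0 < k := by
      rcases Nat.eq_zero_or_pos k with rfl | h
      · simp at hρ
      · exact h
    have h1 : ∀ y, k ^ (r + 1) * y + ρ = k * (k ^ r * y + ρ / k) + ρ % k := fun y => by
      have := Nat.div_add_mod ρ k
      rw [mul_add, add_assoc, this]
      ring
    rw [h1, h1]
    exact h _ _ _ (Nat.mod_lt _ hk) (ih (Nat.div_lt_of_lt_mul (by rwa [← pow_succ'])))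

lemma Dz.det (h : Aut k σ) (ha : Dz σ a) (r : ℕ) : Det k σ r a :=
  fun _ hρ _ _ e => ha _ _ (h.pow r hρ e)

lemma Det.mono (h : Aut k σ) (hk : 0 < k) {r T : ℕ} (hφ : Det k σ r φ) (hT : r ≤ T) :
    Det k σ T φ := by
  obtain ⟨s, rfl⟩ := Nat.exists_eq_add_of_le hT
  intro ρ hρ y y' e
  have h1 : ∀ y, k ^ (r + s) * y + ρ = k ^ r * (k ^ s * y + ρ / k ^ r) + ρ % k ^ r := fun y => by
    have := Nat.div_add_mod ρ (k ^ r)
    rw [mul_add, add_assoc, this]
    ring
  simp only [ap, h1]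
  exact hφ _ (Nat.mod_lt _ (by positivity)) _ _
    (h.pow s (Nat.div_lt_of_lt_mul (by rwa [← pow_add])) e)

lemma Aut.pair (h : Aut k σ) : Aut k fun y => (σ y, σ (y + 1)) := by
  intro n n' d hd e
  obtain ⟨e1, e2⟩ := Prod.mk.inj e
  refine Prod.ext (h _ _ _ hd e1) ?_
  rcases Nat.lt_or_ge (d + 1) k with h1 | h1
  · exact h _ _ _ h1 e1
  · have h2 : ∀ n, k * n + d + 1 = k * (n + 1) + 0 := fun n => by
      rw [mul_add_one]
      omega
    simp only [h2]
    exact h _ _ _ (by omega) e2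

lemma det_and (h : Aut k σ) (ha : Dz σ a) {r Δ : ℕ} (hΔ : Δ ≤ k ^ r) :
    Det k (fun y => (σ y, σ (y + 1))) r fun n => a n ∧ a (n + Δ) := by
  intro ρ hρ y y' e
  obtain ⟨e1, e2⟩ := Prod.mk.inj e
  refine And.imp (ha.det h r ρ hρ _ _ e1) ?_
  rcases Nat.lt_or_ge (ρ + Δ) (k ^ r) with h1 | h1
  · simp only [add_assoc]
    exact ha.det h r _ h1 _ _ e1
  · have h2 : ∀ y, k ^ r * y + ρ + Δ = k ^ r * (y + 1) + (ρ + Δ - k ^ r) := fun n => by
      rw [mul_add_one]
      omega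
    simp only [h2]
    exact ha.det h r _ (by omega) _ _ e2

/-- the states of `g` consecutive blocks -/
def sup (σ : ℕ → S) (g x : ℕ) : Fin g → S := fun e => σ (g * x + e)

lemma dz_sup (h : Aut k σ) (hk : 0 < k) (ha : Dz σ a) {g r j : ℕ} (hj : j < k ^ r * g) :
    Dz (sup σ g) (ap a (k ^ r * g) j) := by
  intro x x' e
  have h1 : ∀ x, k ^ r * g * x + j = k ^ r * (g * x + j / k ^ r) + j % k ^ r := fun y => by
    have := Nat.div_add_mod j (k ^ r)
    rw [mul_add, add_assoc, this]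
    ring
  simp only [ap, h1]
  exact ha.det h r _ (Nat.mod_lt _ (by positivity)) _ _
    (congrFun e ⟨j / k ^ r, Nat.div_lt_of_lt_mul hj⟩)

lemma split (k : ℕ) {M : ℕ} (hM : 0 < M) : ∃ r g, 0 < g ∧ g.Coprime k ∧ M ∣ k ^ r * g := by
  induction M using Nat.strong_induction_on with
  | _ M ih =>
    by_cases h : M.Coprime k
    · exact ⟨0, M, hM, h, by simp⟩
    · have h1 := Nat.gcd_pos_of_pos_left k hM
      obtain ⟨M', h2⟩ := Nat.gcd_dvd_left M k
      have h3 : 0 < M' := Nat.pos_of_ne_zero fun e => by rw [e] at h2; omega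
      have h4 : M.gcd k ≠ 1 := h
      obtain ⟨r, g, h5, h6, h7⟩ := ih M' (by nlinarith [show 2 ≤ M.gcd k by omega]) h3
      refine ⟨r + 1, g, h5, h6, ?_⟩
      rw [h2, pow_succ', mul_assoc]
      exact mul_dvd_mul (Nat.gcd_dvd_right M k) h7

/-- initial words with the same state that differ by any multiple of `H` modulo `g` -/
def Pref (k : ℕ) (σ : ℕ → S) (H : ℕ) : Prop := ∀ g, 0 < g → g.Coprime k → ∃ R, ∀ y, ∃ z < k ^ R,
  ∀ t : ZMod g, ∃ z' < k ^ R, σ (k ^ R * y + z') = σ (k ^ R * y + z) ∧ (z' : ZMod g) = z + H * t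

lemma exists_inv {g : ℕ} (hg : g.Coprime k) (r : ℕ) : ∃ u : ZMod g, (k : ZMod g) ^ r * u = 1 := by
  have := ((ZMod.isUnit_iff_coprime k g).2 hg.symm).pow r
  exact this.exists_right_inv

lemma exists_pref [Finite S] (h : Aut k σ) (hk : 2 ≤ k) :
    ∃ H, 0 < H ∧ H.Coprime k ∧ Pref k σ H := by
  classical
  obtain ⟨C, hC⟩ := pigeon S
  obtain ⟨r0, H, hH, hHk, hd⟩ := split k (Nat.factorial_pos C)
  refine ⟨H, hH, hHk, fun g hg hgk => ?_⟩
  have : NeZero g := ⟨hg.ne'⟩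
  have hl : C < k ^ C := Nat.lt_pow_self hk
  obtain ⟨u0, hu0⟩ := exists_inv hgk r0
  obtain ⟨u, hu⟩ := exists_inv hgk C
  have key : ∀ n y, ∃ z < k ^ (C * n), ∃ A : Finset (ZMod g), 0 ∈ A ∧
      (∀ x ∈ A, ∃ z' < k ^ (C * n), σ (k ^ (C * n) * y + z') = σ (k ^ (C * n) * y + z) ∧
        (z' : ZMod g) = z + x) ∧ (n + 1 ≤ A.card ∨ ∀ t : ZMod g, (H : ZMod g) * t ∈ A) := by
    intro n y
    induction n with
    | zero => exact ⟨0, by simp, {0}, by simp, by simp, by simp⟩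
    | succ n ih =>
      obtain ⟨z, hz, A, h0, h1, h2⟩ := ih
      obtain ⟨v, v', h3, h4, h5⟩ := hC fun v => σ (k ^ C * (k ^ (C * n) * y + z) + v)
      obtain ⟨e, rfl⟩ := Nat.exists_eq_add_of_lt h3
      have hb : ∀ z v, z < k ^ (C * n) → v < k ^ C → k ^ C * z + v < k ^ (C * (n + 1)) := by
        intro z v h1 h2
        rw [mul_add_one, pow_add]
        nlinarith
      have he : ∀ z v, k ^ (C * (n + 1)) * y + (k ^ C * z + v) =
          k ^ C * (k ^ (C * n) * y + z) + v := fun z v => by ring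
      let A' := A.image fun x => (k : ZMod g) ^ C * x
      have hA' : A'.card = A.card := card_image_of_injective _ fun x y e => by
        have e : (k : ZMod g) ^ C * x = k ^ C * y := e
        linear_combination u * e - (x - y) * hu
      have h0' : 0 ∈ A' := mem_image.2 ⟨0, h0, by simp⟩
      refine ⟨k ^ C * z + v, hb _ _ hz (by omega), A' ∪ A'.image (fun x => x + ((e + 1 : ℕ) : ZMod g)),
        mem_union_left _ h0', fun x hx => ?_, ?_⟩
      · rcases mem_union.1 hx with hx1 | hx1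
        · obtain ⟨x1, hx2, rfl⟩ := mem_image.1 hx1
          obtain ⟨z', a1, a2, a3⟩ := h1 x1 hx2
          refine ⟨k ^ C * z' + v, hb _ _ a1 (by omega), ?_, by push_cast; rw [a3]; ring⟩
          rw [he, he]
          exact h.pow C (by omega) a2
        · obtain ⟨x1, hx2, rfl⟩ := mem_image.1 hx1
          obtain ⟨x2, hx3, rfl⟩ := mem_image.1 hx2
          obtain ⟨z', a1, a2, a3⟩ := h1 x2 hx3
          refine ⟨k ^ C * z' + (v + e + 1), hb _ _ a1 (by omega), ?_,
            by push_cast; rw [a3]; ring⟩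
          rw [he, he]
          exact (h.pow C (by omega) a2).trans h5.symm
      · rcases h2 with h2 | h2
        · by_cases h6 : A'.image (fun x => x + ((e + 1 : ℕ) : ZMod g)) ⊆ A'
          · refine Or.inr fun t => mem_union_left _ ?_
            have h7 : ∀ s : ℕ, ((s * (e + 1) : ℕ) : ZMod g) ∈ A' := by
              intro s
              induction s with
              | zero => simpa using h0'
              | succ s ih => exact h6 (mem_image.2 ⟨_, ih, by push_cast; ring⟩)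
            obtain ⟨d', hd'⟩ := (Nat.dvd_factorial (m := e + 1) (by omega) (by omega)).trans hd
            have h8 := congrArg (Nat.cast : ℕ → ZMod g) hd'
            convert h7 (d' * u0 * t : ZMod g).val using 1
            push_cast at h8 ⊢
            rw [ZMod.natCast_zmod_val]
            linear_combination u0 * t * h8 - H * t * hu0
          · left
            have := card_lt_card (Finset.ssubset_iff_subset_ne.2 ⟨subset_union_left (s₁ := A')
              (s₂ := A'.image (fun x => x + ((e + 1 : ℕ) : ZMod g))),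
              fun e' => h6 (subset_union_right.trans e'.ge)⟩)
            omega
        · refine Or.inr fun t => mem_union_left _ (mem_image.2 ⟨_, h2 (u * t), ?_⟩)
          linear_combination H * t * hu
  refine ⟨C * g, fun y => ?_⟩
  obtain ⟨z, hz, A, -, h1, h2⟩ := key g y
  refine ⟨z, hz, fun t => h1 _ (h2.resolve_left (fun h => ?_) t)⟩
  have := card_le_univ A
  rw [ZMod.card] at this
  omega

lemma cnt_ap' (φ : ℕ → Prop) (X Q L : ℕ) :
    cnt φ X (Q * L) = ∑ t ∈ range Q, cnt (fun m => φ (X + (Q * m + t))) 0 L := by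
  have := cnt_ap (fun m => φ (X + m)) Q 0 L
  simpa [cnt, ap] using this

/-- densities along classes modulo numbers prime to `k` stabilise -/
lemma stab (h : Aut k σ) (hk : 2 ≤ k) {H : ℕ} (hP : Pref k σ H) {r0 : ℕ} (hφ : Det k σ r0 φ)
    {g : ℕ} (hg : 0 < g) (hgk : g.Coprime k) (hH : H ∣ g) (r ρ : ℕ) :
    bd (ap φ (k ^ r * g) ρ) ≤ bd (ap φ (k ^ r * H) ρ) := by
  obtain ⟨R, hR⟩ := hP g hg hgk
  obtain ⟨g', hg'⟩ := hH
  have hH0 : 0 < H := Nat.pos_of_ne_zero fun e => by rw [e] at hg'; omega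
  have hg0 : 0 < g' := Nat.pos_of_ne_zero fun e => by rw [e] at hg'; omega
  set M := k ^ r * g with hM
  set M2 := k ^ r * H with hM2
  have hMM : M = M2 * g' := by rw [hM, hM2, hg']; ring
  have hM0 : 0 < M := by positivity
  have hM20 : 0 < M2 := by positivity
  set d := bd (ap φ M ρ)
  refine le_bd fun ε hε => ?_
  set c : ℕ := 2 * k ^ R * M with hc
  have hc0 : (0 : ℝ) < c := by positivity
  have hη : 0 < ε / (2 * c) := by positivity
  obtain ⟨C, hC⟩ := up_bd (ap φ M ρ) _ hη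
  refine ⟨g' * (2 * ε + 2 * C), fun L₀ => ?_⟩
  set T := M * (L₀ + 1) + r + r0 with hT
  have hT1 : T < k ^ T := Nat.lt_pow_self hk
  obtain ⟨L, hL1, hL2⟩ : ∃ L, M * (L + 1) ≤ k ^ T ∧ k ^ T < M * (L + 2) := by
    have h1 : 1 ≤ k ^ T / M := (Nat.le_div_iff_mul_le hM0).2 (by nlinarith)
    refine ⟨k ^ T / M - 1, ?_, ?_⟩
    · rw [Nat.sub_add_cancel h1]
      exact Nat.mul_div_le _ _
    · rw [show k ^ T / M - 1 + 2 = k ^ T / M + 1 by omega]
      exact Nat.lt_mul_div_succ _ hM0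
  have hL3 : L₀ ≤ L := by
    have : M * (L₀ + 1) < M * (L + 2) := by omega
    have := Nat.lt_of_mul_lt_mul_left this
    omega
  refine ⟨g' * L, by nlinarith, ?_⟩
  set Λ := 2 * (k ^ T * k ^ R) with hΛ
  obtain ⟨x, hx⟩ := lo_len (le_refl d) hη Λ
  set X := Λ * x
  have hK : 0 < k ^ T * k ^ R := by positivity
  set y := (M * X + ρ) / (k ^ T * k ^ R) + 1 with hy
  have hy1 : M * X + ρ < k ^ T * k ^ R * y := Nat.lt_mul_div_succ _ hK
  have hy2 : k ^ T * k ^ R * (y + 1) ≤ M * X + ρ + Λ := by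
    have := Nat.mul_div_le (M * X + ρ) (k ^ T * k ^ R)
    rw [hy, hΛ]
    nlinarith
  obtain ⟨z, hz, hz'⟩ := hR y
  obtain ⟨m2, j, hj, hm2⟩ : ∃ m2 j, j < M2 ∧ k ^ T * (k ^ R * y + z) + j = M2 * m2 + ρ := by
    obtain ⟨w, hw⟩ : ∃ w, k ^ T * (k ^ R * y + z) = ρ + w + 1 :=
      Nat.exists_eq_add_of_lt (by nlinarith [Nat.zero_le (k ^ T * z), Nat.zero_le (M * X)])
    refine ⟨w / M2 + 1, M2 - 1 - w % M2, by omega, ?_⟩
    have := Nat.div_add_mod w M2
    have := Nat.mod_lt w hM20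
    rw [hw, mul_add_one]
    omega
  refine ⟨m2, ?_⟩
  rw [cnt_ap']
  have hΛc : (Λ : ℝ) ≤ c * (L + 2) := by
    have : Λ ≤ c * (L + 2) := by
      rw [hΛ, hc]
      nlinarith [Nat.zero_le (k ^ R)]
    exact_mod_cast this
  have h2η : 2 * (ε / (2 * c)) * Λ ≤ ε * (L + 2) := by
    calc _ ≤ 2 * (ε / (2 * c)) * (c * (L + 2)) := by gcongr
      _ = _ := by field_simp
  refine le_trans (le_of_eq ?_) (card_nsmul_le_sum (range g') _
    ((d - ε) * L - (2 * ε + 2 * C)) fun s hs => ?_)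
  · simp only [card_range, nsmul_eq_mul]
    push_cast
    ring
  have hs := mem_range.1 hs
  obtain ⟨u, hu⟩ := exists_inv hgk T
  obtain ⟨z', a1, a2, a3⟩ := hz' (-(k ^ r * (m2 + s) * u))
  have hj0 : j + M2 * s < M := by rw [hMM]; nlinarith
  have hmod : ρ ≡ k ^ T * (k ^ R * y + z') + (j + M2 * s) [MOD M] := by
    refine (Nat.modEq_and_modEq_iff_modEq_mul (hgk.symm.pow_left r)).1 ⟨?_, ?_⟩
    · rw [← ZMod.natCast_eq_natCast_iff]
      have e := congrArg (Nat.cast : ℕ → ZMod (k ^ r)) hm2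
      have e0 : (k : ZMod (k ^ r)) ^ r = 0 := by exact_mod_cast ZMod.natCast_self (k ^ r)
      have e1 : (k : ZMod (k ^ r)) ^ T = 0 := pow_eq_zero_of_le (by omega) e0
      rw [hM2] at e ⊢
      push_cast at e ⊢
      rw [e0, e1] at e ⊢
      linear_combination -e
    · rw [← ZMod.natCast_eq_natCast_iff]
      have e := congrArg (Nat.cast : ℕ → ZMod g) hm2
      rw [hM2] at e ⊢
      push_cast at e ⊢
      rw [a3]
      linear_combination -e + H * k ^ r * (m2 + s) * hu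
  have hlo : k ^ T * k ^ R * y ≤ k ^ T * (k ^ R * y + z') := by nlinarith [Nat.zero_le (k ^ T * z')]
  have hhi : k ^ T * (k ^ R * y + z') + k ^ T ≤ k ^ T * k ^ R * (y + 1) := by
    have := Nat.mul_le_mul_left (k ^ T) (show z' + 1 ≤ k ^ R from a1)
    nlinarith
  obtain ⟨m, hm⟩ := (Nat.modEq_iff_exists_eq_add (by omega)).1 hmod
  have hm1 : X ≤ m := Nat.le_of_mul_le_mul_left (show M * X ≤ M * m by omega) hM0
  have hm3 : m + L ≤ X + Λ := Nat.le_of_mul_le_mul_left (show M * (m + L) ≤ M * (X + Λ) by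
    have : Λ ≤ M * Λ := Nat.le_mul_of_pos_left _ hM0
    rw [mul_add_one] at hL1
    rw [mul_add, mul_add]
    omega) hM0
  have h1 := sub_def hC hη.le hm1 hm3
  refine le_trans (by linarith) (cnt_mono (φ := ap φ M ρ) (X := m) fun l hl h2 => ?_)
  have hl' : j + M2 * s + M * l < k ^ T := by nlinarith
  have h3 := hφ.mono h (by omega) (show r0 ≤ T by omega) _ hl' _ _ a2
  simp only [ap] at h2 h3 ⊢
  rw [show M2 * (m2 + (g' * (0 + l) + s)) + ρ =
    k ^ T * (k ^ R * y + z) + (j + M2 * s + M * l) by rw [hMM]; nlinarith]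
  apply h3
  rwa [show k ^ T * (k ^ R * y + z') + (j + M2 * s + M * l) = M * (m + l) + ρ by
    rw [mul_add M]; omega]

lemma ap_ap (φ : ℕ → Prop) (M ρ Q t : ℕ) : ap (ap φ M ρ) Q t = ap φ (M * Q) (M * t + ρ) := by
  funext m
  simp only [ap]
  congr 1
  ring

lemma bd_ap_mod (φ : ℕ → Prop) (M ρ : ℕ) : bd (ap φ M ρ) ≤ bd (ap φ M (ρ % M)) := by
  refine bd_mono (ρ / M) fun m h => ?_
  simp only [ap] at h ⊢
  rwa [mul_add, add_assoc, Nat.div_add_mod]

/-- the largest density along a progression is attained -/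
lemma exists_max [Finite S] (h : Aut k σ) (hk : 2 ≤ k) (ha : Dz σ a) :
    ∃ D, (∀ M ρ, 0 < M → Up (ap a M ρ) D) ∧ ∃ M ρ, 0 < M ∧ D ≤ bd (ap a M ρ) := by
  obtain ⟨H, hH, hHk, hP⟩ := exists_pref h hk
  obtain ⟨φ, ⟨r, ρ, -, rfl⟩, hmax⟩ := Set.exists_max_image
    {φ | ∃ r ρ, ρ < k ^ r * H ∧ φ = ap a (k ^ r * H) ρ} bd
    ((finite_Dz (sup σ H)).subset (by
      rintro _ ⟨r, ρ, h1, rfl⟩
      exact dz_sup h (by omega) ha h1)) ⟨_, 0, 0, by simpa using hH, rfl⟩
  refine ⟨bd (ap a (k ^ r * H) ρ), fun M ρ' hM => up_of_le ?_, k ^ r * H, ρ, by positivity, le_rfl⟩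
  obtain ⟨r', g, hg, hgk, Q, hQ⟩ := split k hM
  have hQ0 : 0 < Q := Nat.pos_of_ne_zero fun e => by
    rw [e, mul_zero] at hQ
    exact absurd hQ (by positivity)
  refine bd_le_of_ap (Q := Q * H) (by positivity) fun t _ => up_of_le ?_
  rw [ap_ap, ← mul_assoc, ← hQ, mul_assoc]
  refine (stab h hk hP (ha.det h 0) (by positivity) (hgk.mul_left hHk) (dvd_mul_left H g) _ _).trans
    ((bd_ap_mod _ _ _).trans (hmax _ ⟨r', _, Nat.mod_lt _ (by positivity), rfl⟩))

end Pool.Agent.P.MP_05c0aa_nt
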