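import Pool.Agent.P.MP_05c0aa_nt.Full

/-! A long progression of the set is carried onto a long progression of the complement. -/

namespace Pool.Agent.P.MP_05c0aa_nt

variable {S : Type} {k : ℕ} {σ : ℕ → S} {a b : ℕ → Prop} {p q u w : ℕ}

lemma solve {U W : ℕ} (hU : 0 < U) (hW : 0 < W) (h : U.Coprime W) (c e : ℕ) :
    ∃ μ ν, W * μ + c = U * ν + e := by
  have : NeZero U := ⟨hU.ne'⟩
  obtain ⟨v, hv⟩ := exists_inv h 1
  have h1 : e ≡ W * ((v * (e - c)).val + U * e) + c [MOD U] := by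
    rw [← ZMod.natCast_eq_natCast_iff]
    push_cast
    rw [ZMod.natCast_zmod_val, ZMod.natCast_self]
    linear_combination (c - e) * hv
  obtain ⟨ν, h2⟩ := (Nat.modEq_iff_exists_eq_add (by
    have : e ≤ W * (U * e) := (Nat.le_mul_of_pos_left _ hU).trans (Nat.le_mul_of_pos_left _ hW)
    rw [mul_add]
    omega)).1 h1
  exact ⟨_, ν, h2.trans (add_comm _ _)⟩

lemma Sys.lg_cop (h : Sys p q u w a) {M : ℕ} (hM : 0 < M) (hL : Lg a M) :
    ∃ M, 0 < M ∧ M.Coprime p ∧ Lg a M := by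
  obtain ⟨e, M', h1, rfl⟩ := Nat.exists_eq_pow_mul_and_not_dvd hM.ne' p h.pp.ne_one
  have hp := h.pp.pos
  have hq := h.qq.pos
  have h0 : 0 < M' := Nat.pos_of_mul_pos_left hM
  have hc := (Nat.Prime.coprime_iff_not_dvd h.pp).2 h1
  choose n hn using hL
  have : NeZero (p ^ e) := ⟨by positivity⟩
  obtain ⟨t, ht⟩ := pigeon_inf fun L => (n L : ZMod (p ^ e))
  obtain ⟨J, I, c', h2, h3⟩ := h.absorb e t.val
  obtain ⟨s, rfl⟩ := Nat.exists_eq_add_of_le h2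
  rw [Nat.mod_eq_of_lt (t.val_lt.trans_le (Nat.pow_le_pow_right hp h2))] at h3
  refine ⟨q ^ I * M', by positivity, (h.cop.symm.pow_left I).mul_left hc.symm, fun L => ?_⟩
  obtain ⟨L1, h4, h5⟩ := ht (p ^ s * (L + 1))
  have h6 : n L1 % p ^ e = t.val := by rw [← h5, ZMod.val_natCast]
  obtain ⟨P, hP⟩ := Nat.exists_eq_add_of_lt (pow_pos hp s)
  obtain ⟨l0, h7, h8⟩ := Nat.exists_mul_mod_eq_of_coprime (P * (n L1 / p ^ e))
    (hc.symm.pow_right s) (by positivity)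
  obtain ⟨m, hm⟩ : p ^ s ∣ n L1 / p ^ e + M' * l0 := by
    rw [← Nat.modEq_zero_iff_dvd]
    refine (Nat.ModEq.add_left _ h8).trans (Nat.modEq_zero_iff_dvd.2 ⟨n L1 / p ^ e, ?_⟩)
    rw [hP]
    ring
  refine ⟨q ^ I * m + c', fun l hl => ?_⟩
  have h9 := hn L1 (l0 + p ^ s * l) (by nlinarith)
  have := h3 (m + l * M') (by
    convert h9 using 1
    rw [← h6]
    linear_combination (Nat.div_add_mod (n L1) (p ^ e)) + p ^ e * hm.symm)
  convert this using 1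
  ring

lemma Lg.cell {M : ℕ} (hM : 0 < M) (h : Lg a M) (K : ℕ) (hK : 0 < K) :
    ∃ y, ∃ c : ZMod M, 1 ≤ y ∧ ∀ j < K, (j : ZMod M) = c → a (K * y + j) := by
  obtain ⟨n, hn⟩ := h (2 * K + 1)
  refine ⟨n / K + 1, n - (K * (n / K + 1) : ℕ), Nat.le_add_left _ _, fun j hj e => ?_⟩
  have h1 := Nat.lt_mul_div_succ n hK
  have h2 := Nat.mul_div_le n K
  obtain ⟨l, hl⟩ := (Nat.modEq_iff_exists_eq_add (show n ≤ K * (n / K + 1) + j by omega)).1
    ((ZMod.natCast_eq_natCast_iff _ _ M).1 (by rw [Nat.cast_add, e]; ring))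
  rw [hl, mul_comm M]
  refine hn l ?_
  rw [mul_add_one] at hl
  nlinarith

lemma cells [Finite S] (hk : 0 < k) (hσ : Aut k σ) (ha : Dz σ a) (hb : Dz σ b) {M M' : ℕ}
    (hM : 0 < M) (hM' : 0 < M') (h1 : Lg a M) (h2 : Lg b M') : ∃ y c y' c', 1 ≤ y ∧ 1 ≤ y' ∧
      ∀ N, ∃ τ, N ≤ τ ∧ (∀ n, k ^ τ * y ≤ n → n < k ^ τ * (y + 1) → n ≡ c [MOD M] → a n) ∧
        ∀ n, k ^ τ * y' ≤ n → n < k ^ τ * (y' + 1) → n ≡ c' [MOD M'] → b n := by
  choose y c h3 h4 using fun τ => h1.cell hM (k ^ τ) (by positivity)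
  choose y' c' h5 h6 using fun τ => h2.cell hM' (k ^ τ) (by positivity)
  have : NeZero M := ⟨hM.ne'⟩
  have : NeZero M' := ⟨hM'.ne'⟩
  obtain ⟨t, ht⟩ := pigeon_inf fun τ => (σ (y τ), σ (y' τ), c τ, c' τ, ((k ^ τ : ℕ) : ZMod M),
    ((k ^ τ : ℕ) : ZMod M'))
  obtain ⟨s, -, hs⟩ := ht 0
  refine ⟨y s, k ^ s * y s + (c s).val, y' s, k ^ s * y' s + (c' s).val, h3 s, h5 s, fun N => ?_⟩
  obtain ⟨τ, h7, h8⟩ := ht N
  have h9 := h8.trans hs.symm
  simp only [Prod.mk.injEq] at h9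
  obtain ⟨a1, a2, a3, a4, a5, a6⟩ := h9
  refine ⟨τ, h7, fun n b1 b2 b3 => ?_, fun n b1 b2 b3 => ?_⟩ <;>
    obtain ⟨j, rfl⟩ := Nat.exists_eq_add_of_le b1 <;> rw [mul_add_one] at b2 <;>
    rw [← ZMod.natCast_eq_natCast_iff, Nat.cast_add, Nat.cast_add, Nat.cast_mul, Nat.cast_mul,
      ZMod.natCast_zmod_val] at b3
  · exact ha.det hσ τ j (by omega) _ _ a1 (h4 τ j (by omega) (by
      rw [a3, ← add_left_cancel_iff, ← b3, a5]))
  · exact hb.det hσ τ j (by omega) _ _ a2 (h6 τ j (by omega) (by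
      rw [a4, ← add_left_cancel_iff, ← b3, a6]))

/-- a branch of an iterate with a given displacement modulo `h` -/
def Tr (a : ℕ → Prop) (h J I : ℕ) (t : ZMod h) : Prop :=
  ∃ c c', Imp a (2 ^ J) c (3 ^ I) c' ∧ (2 ^ J * c' - 3 ^ I * c : ZMod h) = t

lemma Tr.comp {h J I J' I' : ℕ} {t t' : ZMod h} (h1 : Tr a h J I t) (h2 : Tr a h J' I' t') :
    Tr a h (J + J') (I + I') (3 ^ I' * t + 2 ^ J * t') := by
  obtain ⟨c, c', a1, rfl⟩ := h1
  obtain ⟨e, e', a2, rfl⟩ := h2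
  obtain ⟨μ, ν, h3⟩ := solve (U := 2 ^ J') (W := 3 ^ I) (by positivity) (by positivity)
    (Nat.Coprime.pow _ _ (by norm_num)) c' e
  refine ⟨_, _, by rw [pow_add, pow_add]; exact a1.comp a2 h3, ?_⟩
  have := congrArg (Nat.cast : ℕ → ZMod h) h3
  push_cast at this ⊢
  linear_combination -2 ^ J * 3 ^ I' * this

lemma Tr.zero (h : ℕ) : Tr a h 0 0 0 := ⟨0, 0, fun m h => by simpa using h, by simp⟩

lemma tr_all (i1 : Imp a 2 0 3 0) (i2 : Imp a 4 1 3 1) (i3 : Imp a 4 3 3 2) {h φ : ℕ}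
    (hh : 0 < h) (hφ : 0 < φ) (e2 : (2 : ZMod h) ^ φ = 1) (e3 : (3 : ZMod h) ^ φ = 1)
    (t : ZMod h) {n : ℕ} (hn : h ≤ n) (b : ℕ) : Tr a h (φ * (b + 2 * n)) (φ * (b + n)) t := by
  have : NeZero h := ⟨hh.ne'⟩
  have h1 : ∀ j i t j' i' t', Tr a h (φ * j) (φ * i) t → Tr a h (φ * j') (φ * i') t' →
      Tr a h (φ * (j + j')) (φ * (i + i')) (t + t') := by
    intro j i t j' i' t' a1 a2
    have := a1.comp a2
    rwa [pow_mul, pow_mul, e2, e3, one_pow, one_pow, one_mul, one_mul, ← mul_add, ← mul_add] at this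
  have h2 : ∀ j i t, Tr a h (φ * j) (φ * i) t → ∀ n : ℕ,
      Tr a h (φ * (j * n)) (φ * (i * n)) (n * t) := by
    intro j i t a1 n
    induction n with
    | zero => simpa using Tr.zero h
    | succ n ih => simpa [mul_add, add_mul] using h1 _ _ _ _ _ _ ih a1
  have h3 : ∀ n, Tr a h n n 0 := by
    intro n
    induction n with
    | zero => exact Tr.zero h
    | succ n ih => simpa using ih.comp (J' := 1) (I' := 1) (t' := 0) ⟨0, 0, i1, by simp⟩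
  have h4 : ∀ n, Tr a h (2 * n) n (3 ^ n - 2 ^ (2 * n)) := by
    intro n
    induction n with
    | zero => simpa using Tr.zero h
    | succ n ih =>
      convert ih.comp (J' := 2) (I' := 1) (t' := -1) ⟨3, 2, i3, by norm_num⟩ using 1 <;> ring
  obtain ⟨φ, rfl⟩ := Nat.exists_eq_add_of_lt hφ
  rw [zero_add] at *
  have h5 : Tr a h ((φ + 1) * 2) ((φ + 1) * 1) 0 := by
    convert h4 (φ + 1) using 1
    · ring
    · ring
    · rw [pow_mul', e2, e3]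
      simp
  have h6 : Tr a h ((φ + 1) * 2) ((φ + 1) * 1) (5 * 3 ^ φ - 1) := by
    convert Tr.comp (J := 2) (I := 1) (t := 1) ⟨1, 1, i2, by norm_num⟩ (h4 φ) using 1
    · ring
    · ring
    · linear_combination (2 ^ (φ + 1) + 1) * e2
  obtain ⟨d, rfl⟩ := Nat.exists_eq_add_of_le ((t * 3 * 2 ^ φ).val_lt.le.trans hn)
  convert h1 _ _ _ _ _ _ (h3 ((φ + 1) * b)) (h1 _ _ _ _ _ _ (h2 _ _ _ h6 (t * 3 * 2 ^ φ).val)
    (h2 _ _ _ h5 d)) using 1
  · ring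
  · ring
  · rw [ZMod.natCast_zmod_val]
    linear_combination -t * e2 - 5 * t * 2 ^ φ * e3

lemma ratio {φ : ℕ} (hφ : 0 < φ) {α β : ℝ} (hα : 0 < α) (hβ : α < β) (N : ℕ) :
    ∃ n b : ℕ, N ≤ n ∧ α * 2 ^ (φ * (b + 2 * n)) < 3 ^ (φ * (b + n)) ∧
      3 ^ (φ * (b + n)) < β * 2 ^ (φ * (b + 2 * n)) := by
  have h1 : ((3 : ℝ) / 4) ^ φ < 1 := pow_lt_one₀ (by norm_num) (by norm_num) hφ.ne'
  have h2 : (1 : ℝ) < (3 / 2) ^ φ := one_lt_pow₀ (by norm_num) hφ.ne'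
  have h3 : ∀ n b : ℕ, (((3 : ℝ) / 4) ^ φ) ^ n * ((3 / 2) ^ φ) ^ b =
      3 ^ (φ * (b + n)) / 2 ^ (φ * (b + 2 * n)) := fun n b => by
    rw [show (4 : ℝ) = 2 ^ 2 by norm_num]
    simp only [div_pow, ← pow_mul]
    field_simp
    ring
  obtain ⟨N1, h4⟩ := exists_pow_lt_of_lt_one hα h1
  obtain ⟨n, hn, b, h5, h6⟩ := rot (x := ((3 : ℝ) / 4) ^ φ) (by positivity) h2
    (fun s r hs => ⟨((pow_lt_one₀ (by positivity) h1 hs.ne').trans_le (one_le_pow₀ h2.le)).ne,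
      fun e => by
        rw [h3, div_eq_one_iff_eq (by positivity)] at e
        have e' : 3 ^ (φ * (r + s)) = 2 ^ (φ * (r + 2 * s)) := by exact_mod_cast e
        have := Nat.prime_two.dvd_of_dvd_pow (e' ▸ dvd_pow_self 2 (by positivity))
        omega⟩) hα hβ (N + N1)
  obtain ⟨b, rfl⟩ := Int.eq_ofNat_of_zero_le (show 0 ≤ b by
    by_contra hb
    have a1 := zpow_le_one_of_nonpos₀ h2.le (not_le.1 hb).le
    have a2 : (((3 : ℝ) / 4) ^ φ) ^ n ≤ ((3 / 4) ^ φ) ^ N1 :=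
      pow_le_pow_of_le_one (by positivity) h1.le (by omega)
    have a3 : 0 < (((3 : ℝ) / 4) ^ φ) ^ n := by positivity
    nlinarith)
  rw [zpow_natCast, h3] at h5 h6
  exact ⟨n, b, by omega, (lt_div_iff₀ (by positivity)).1 h5, (div_lt_iff₀ (by positivity)).1 h6⟩

theorem conn [Finite S] (hk : 2 ≤ k) (hσ : Aut k σ) (ha : Dz σ a) (i1 : Imp a 2 0 3 0)
    (i2 : Imp a 4 1 3 1) (i3 : Imp a 4 3 3 2) {M M' : ℕ} (hM : 0 < M) (hM' : 0 < M')
    (c2 : M.Coprime 2) (c3 : M'.Coprime 3) (h1 : Lg a M) (h2 : Lg (fun n => ¬ a n) M') :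
    False := by
  obtain ⟨y, c, y', c', hy, hy', h3⟩ := cells (b := fun n => ¬ a n) (by omega) hσ ha
    (fun _ _ e h h' => h (ha _ _ e.symm h')) hM hM' h1 h2
  have hh := Nat.gcd_pos_of_pos_left M' hM
  have d1 := Nat.gcd_dvd_left M M'
  have d2 := Nat.gcd_dvd_right M M'
  have hφ := Nat.totient_pos.2 hh
  have e0 : ∀ x : ℕ, (M.gcd M').Coprime x → (x : ZMod (M.gcd M')) ^ (M.gcd M').totient = 1 :=
    fun x hx => by
      exact_mod_cast (ZMod.natCast_eq_natCast_iff _ _ _).2 (Nat.ModEq.pow_totient hx.symm)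
  have e2 := e0 2 (c2.coprime_dvd_left d1)
  have e3 := e0 3 (c3.coprime_dvd_left d2)
  obtain ⟨n, b, hn, h4, h5⟩ := ratio hφ (α := (y' + 1 / 3) / (y + 1 / 2))
    (β := (y' + 2 / 3) / (y + 1 / 2)) (by positivity) (by gcongr; norm_num) (M.gcd M')
  obtain ⟨d, d', h6, h7⟩ := tr_all i1 i2 i3 hh hφ e2 e3 (c' - c) hn b
  have e4 := congrArg (· ^ (b + 2 * n)) e2
  have e5 := congrArg (· ^ (b + n)) e3
  simp only [← pow_mul, one_pow] at e4 e5
  generalize (M.gcd M').totient * (b + 2 * n) = J at *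
  generalize (M.gcd M').totient * (b + n) = I at *
  obtain ⟨μ, ν, a1⟩ := solve (W := 2 ^ J) hM (by positivity) (c2.pow_right J) d c
  obtain ⟨μ', ν', a2⟩ := solve (W := 3 ^ I) hM' (by positivity) (c3.pow_right I) d' c'
  obtain ⟨m, a3, a4⟩ := Nat.chineseRemainder' (show μ ≡ μ' [MOD M.gcd M'] by
    rw [← ZMod.natCast_eq_natCast_iff]
    have b1 := congrArg (Nat.cast : ℕ → ZMod (M.gcd M')) a1
    have b2 := congrArg (Nat.cast : ℕ → ZMod (M.gcd M')) a2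
    push_cast at b1 b2 e4 e5
    rw [(ZMod.natCast_eq_zero_iff _ _).2 d1] at b1
    rw [(ZMod.natCast_eq_zero_iff _ _).2 d2] at b2
    rw [e4] at b1 h7
    rw [e5] at b2 h7
    linear_combination b1 - b2 + h7)
  obtain ⟨τ, hτ, h8, h9⟩ := h3
    (3 * (2 ^ J * m + d + 2 ^ J * (M * M')) + 3 * (3 ^ I * m + d' + 3 ^ I * (M * M')))
  have hK := hτ.trans (Nat.lt_pow_self hk).le
  generalize k ^ τ = K at *
  have hG : 0 < 2 * (2 ^ J * (M * M')) := by positivity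
  have b1 := Nat.mul_div_le (K * (2 * y + 1)) (2 * (2 ^ J * (M * M')))
  have b2 := Nat.lt_mul_div_succ (K * (2 * y + 1)) hG
  generalize K * (2 * y + 1) / (2 * (2 ^ J * (M * M'))) = z at b1 b2
  have b3 : 2 * (2 ^ J * (M * M')) * z ≤ (K : ℝ) * (2 * y + 1) := by exact_mod_cast b1
  have b4 : (K : ℝ) * (2 * y + 1) < 2 * (2 ^ J * (M * M')) * (z + 1) := by exact_mod_cast b2
  have b5 : 3 * (2 ^ J * m + d + 2 ^ J * (M * M')) + 3 * (3 ^ I * m + d' + 3 ^ I * (M * M')) ≤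
      (K : ℝ) := by exact_mod_cast hK
  have b6 : (0 : ℝ) < K := by exact_mod_cast (show 0 < K by omega)
  have p1 : (0 : ℝ) ≤ 2 ^ J * m + d := by positivity
  have p2 : (0 : ℝ) ≤ 3 ^ I * m + d' := by positivity
  have p3 : (0 : ℝ) ≤ 2 ^ J * (M * M') := by positivity
  have p4 : (0 : ℝ) ≤ 3 ^ I * (M * M') := by positivity
  obtain ⟨f1, f2⟩ := in_block (K := K) (Y := y) (n := 2 ^ J * (m + M * M' * z) + d)
    (x := K * (y + 1 / 2)) (C := 2 ^ J * m + d + 2 ^ J * (M * M')) (by linarith) (by linarith)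
    (by rw [abs_le]; push_cast; constructor <;> linarith) (by linarith)
  rw [div_mul_eq_mul_div, div_lt_iff₀ (by positivity)] at h4
  rw [div_mul_eq_mul_div, lt_div_iff₀ (by positivity)] at h5
  obtain ⟨f3, f4⟩ := in_block (K := K) (Y := y') (n := 3 ^ I * (m + M * M' * z) + d')
    (x := 3 ^ I * (K * (y + 1 / 2)) / 2 ^ J) (C := 3 ^ I * m + d' + 3 ^ I * (M * M'))
    (by rw [lt_div_iff₀ (by positivity)]; nlinarith)
    (by rw [div_lt_iff₀ (by positivity)]; nlinarith)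
    (by
      have g1 : (3 : ℝ) ^ I * (M * M' * z) ≤ 3 ^ I * (K * (y + 1 / 2)) / 2 ^ J := by
        rw [mul_div_assoc]
        gcongr
        rw [le_div_iff₀ (by positivity)]
        linarith
      have g2 : (3 : ℝ) ^ I * (K * (y + 1 / 2)) / 2 ^ J ≤ 3 ^ I * (M * M' * (z + 1)) := by
        rw [mul_div_assoc]
        gcongr
        rw [div_le_iff₀ (by positivity)]
        linarith
      rw [abs_le]
      push_cast
      constructor <;> linarith) (by linarith)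
  refine h9 _ f3 f4 ?_ (h6 _ (h8 _ f1 f2 ?_))
  · rw [← ZMod.natCast_eq_natCast_iff] at a4 ⊢
    have := congrArg (Nat.cast : ℕ → ZMod M') a2
    push_cast at this ⊢
    rw [ZMod.natCast_self] at this ⊢
    linear_combination this + 3 ^ I * a4
  · rw [← ZMod.natCast_eq_natCast_iff] at a3 ⊢
    have := congrArg (Nat.cast : ℕ → ZMod M) a1
    push_cast at this ⊢
    rw [ZMod.natCast_self] at this ⊢
    linear_combination this + 2 ^ J * a3

end Pool.Agent.P.MP_05c0aa_nt
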