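import Mathlib

/-! Upper Banach density of predicates on the natural numbers. -/

namespace Pool.Agent.P.MP_05c0aa_nt

open Finset

open Classical in
/-- indicator of a proposition -/
noncomputable def ind (p : Prop) : ℝ := if p then 1 else 0

lemma ind_pos {p : Prop} (h : p) : ind p = 1 := if_pos h

lemma ind_neg {p : Prop} (h : ¬ p) : ind p = 0 := if_neg h

lemma ind_nonneg (p : Prop) : 0 ≤ ind p := by
  by_cases h : p <;> simp [ind, h]

lemma ind_mono {p q : Prop} (h : p → q) : ind p ≤ ind q := by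
  by_cases hp : p
  · rw [ind_pos hp, ind_pos (h hp)]
  · rw [ind_neg hp]
    exact ind_nonneg q

/-- number of `j < L` with `φ (X + j)` -/
noncomputable def cnt (φ : ℕ → Prop) (X L : ℕ) : ℝ := ∑ j ∈ range L, ind (φ (X + j))

/-- restriction to an arithmetic progression -/
def ap (φ : ℕ → Prop) (M ρ : ℕ) : ℕ → Prop := fun m => φ (M * m + ρ)

/-- the upper Banach density is at most `d` -/
def Up (φ : ℕ → Prop) (d : ℝ) : Prop := ∀ ε > 0, ∃ C : ℝ, ∀ X L, cnt φ X L ≤ (d + ε) * L + C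

/-- the upper Banach density -/
noncomputable def bd (φ : ℕ → Prop) : ℝ := sInf {d | Up φ d}

variable {φ ψ : ℕ → Prop} {d : ℝ}

lemma cnt_nonneg (φ : ℕ → Prop) (X L : ℕ) : 0 ≤ cnt φ X L :=
  sum_nonneg fun _ _ => ind_nonneg _

lemma cnt_add (φ : ℕ → Prop) (X L L' : ℕ) :
    cnt φ X (L + L') = cnt φ X L + cnt φ (X + L) L' := by
  simp only [cnt, sum_range_add, add_assoc]

lemma cnt_mono {X X' L : ℕ} (h : ∀ j < L, φ (X + j) → ψ (X' + j)) : cnt φ X L ≤ cnt ψ X' L :=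
  sum_le_sum fun j hj => ind_mono (h j (mem_range.1 hj))

lemma cnt_true {X L : ℕ} (h : ∀ j < L, φ (X + j)) : cnt φ X L = L := by
  rw [cnt, sum_congr rfl fun j hj => ind_pos (h j (mem_range.1 hj))]
  simp

lemma cnt_le (φ : ℕ → Prop) (X L : ℕ) : cnt φ X L ≤ L := by
  rw [← cnt_true (φ := fun _ => True) (X := X) fun _ _ => trivial]
  exact cnt_mono fun _ _ _ => trivial

lemma exists_of_cnt_pos {X L : ℕ} (h : 0 < cnt φ X L) : ∃ j < L, φ (X + j) := by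
  by_contra hn
  push Not at hn
  rw [cnt, sum_eq_zero fun j hj => ind_neg (hn j (mem_range.1 hj))] at h
  exact lt_irrefl _ h

lemma cnt_blocks (φ : ℕ → Prop) (X Λ N : ℕ) :
    cnt φ X (Λ * N) = ∑ s ∈ range N, cnt φ (X + Λ * s) Λ := by
  induction N with
  | zero => simp [cnt]
  | succ N ih => rw [mul_add_one, cnt_add, ih, sum_range_succ]

lemma cnt_ap (φ : ℕ → Prop) (Q X L : ℕ) :
    cnt φ (Q * X) (Q * L) = ∑ t ∈ range Q, cnt (ap φ Q t) X L := by
  rw [cnt_blocks]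
  simp only [cnt, ap]
  rw [sum_comm]
  refine sum_congr rfl fun t _ => sum_congr rfl fun s _ => ?_
  rw [mul_add]

lemma cnt_sub_le (φ : ℕ → Prop) {X L X' L' : ℕ} (h1 : X ≤ X') (h2 : X' + L' ≤ X + L) :
    ∃ L1 L2 : ℕ, L1 + L' + L2 = L ∧
      cnt φ X L = cnt φ X L1 + cnt φ X' L' + cnt φ (X' + L') L2 := by
  obtain ⟨L1, rfl⟩ := Nat.exists_eq_add_of_le h1
  obtain ⟨L2, h3⟩ := Nat.exists_eq_add_of_le h2
  obtain rfl : L = L1 + L' + L2 := by omega
  exact ⟨L1, L2, rfl, by rw [cnt_add, cnt_add, add_assoc X]⟩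

lemma up_one (φ : ℕ → Prop) : Up φ 1 := fun ε hε => ⟨0, fun X L => by
  have := cnt_le φ X L
  have : (0 : ℝ) ≤ ε * L := by positivity
  linarith⟩

/-- a linear function with negative slope is eventually negative -/
lemma exists_neg {a : ℝ} (ha : 0 < a) (C : ℝ) : ∃ L₀ : ℕ, ∀ L : ℕ, L₀ ≤ L → C < a * L := by
  obtain ⟨L₀, h⟩ := exists_nat_gt (C / a)
  refine ⟨L₀, fun L hL => ?_⟩
  rw [div_lt_iff₀' ha] at h
  have : (L₀ : ℝ) ≤ L := by exact_mod_cast hL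
  nlinarith

lemma Up.nonneg (h : Up φ d) : 0 ≤ d := by
  by_contra hd
  obtain ⟨C, hC⟩ := h (-d / 2) (by linarith)
  obtain ⟨L, hL⟩ := exists_neg (a := -d / 2) (by linarith) C
  have := hL L le_rfl
  have := hC 0 L
  have := cnt_nonneg φ 0 L
  linarith

lemma Up.const (h : Up φ d) {ε : ℝ} (hε : 0 < ε) :
    ∃ C : ℝ, 0 ≤ C ∧ ∀ X L, cnt φ X L ≤ (d + ε) * L + C := by
  obtain ⟨C, hC⟩ := h ε hε
  exact ⟨C, by simpa [cnt] using hC 0 0, hC⟩

lemma bd_le (h : Up φ d) : bd φ ≤ d := csInf_le ⟨0, fun _ h => Up.nonneg h⟩ h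

lemma up_of_le (h : bd φ ≤ d) : Up φ d := by
  intro ε hε
  obtain ⟨d', h1, h2⟩ := exists_lt_of_csInf_lt ⟨1, up_one φ⟩ (show bd φ < d + ε / 2 by linarith)
  obtain ⟨C, hC⟩ := h1 (ε / 2) (by linarith)
  refine ⟨C, fun X L => (hC X L).trans ?_⟩
  have : (0 : ℝ) ≤ L := by positivity
  nlinarith

lemma up_bd (φ : ℕ → Prop) : Up φ (bd φ) := up_of_le le_rfl

lemma Up.mono (h : Up ψ d) (s : ℕ) (hφ : ∀ m, φ m → ψ (m + s)) : Up φ d := by
  intro ε hε
  obtain ⟨C, hC⟩ := h ε hε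
  refine ⟨C, fun X L => le_trans (cnt_mono fun j _ h => ?_) (hC (X + s) L)⟩
  have := hφ _ h
  rwa [add_right_comm] at this

lemma bd_mono (s : ℕ) (hφ : ∀ m, φ m → ψ (m + s)) : bd φ ≤ bd ψ := bd_le ((up_bd ψ).mono s hφ)

lemma le_bd (h : ∀ ε > 0, ∃ C : ℝ, ∀ L₀ : ℕ, ∃ L : ℕ, L₀ ≤ L ∧ ∃ X, (d - ε) * L - C ≤ cnt φ X L) :
    d ≤ bd φ := by
  by_contra hn
  have hε : 0 < (d - bd φ) / 3 := by linarith
  obtain ⟨C, hC⟩ := h _ hε
  obtain ⟨C', hC'⟩ := up_bd φ _ hε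
  obtain ⟨L₀, hL⟩ := exists_neg hε (C + C')
  obtain ⟨L, h1, X, h2⟩ := hC L₀
  have := hL L h1
  have := hC' X L
  linarith

lemma lo_len (h : d ≤ bd φ) {ε : ℝ} (hε : 0 < ε) (Λ : ℕ) :
    ∃ x, (d - ε) * Λ ≤ cnt φ (Λ * x) Λ := by
  by_contra hn
  push Not at hn
  have hΛ : 0 < Λ := by
    rcases Nat.eq_zero_or_pos Λ with rfl | h
    · simpa [cnt] using hn 0
    · exact h
  have hd : 0 ≤ d - ε := by
    have := (cnt_nonneg φ _ _).trans_lt (hn 0)
    exact (pos_of_mul_pos_left this (by positivity)).le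
  have : Up φ (d - ε) := by
    intro η hη
    refine ⟨(d - ε) * (2 * Λ), fun X L => ?_⟩
    have h1 : Λ * (X / Λ) ≤ X := Nat.mul_div_le X Λ
    have h2 : X + L ≤ Λ * (X / Λ) + Λ * (L / Λ + 2) := by
      have := Nat.lt_mul_div_succ X hΛ
      have := Nat.lt_mul_div_succ L hΛ
      nlinarith
    obtain ⟨L1, L2, -, h3⟩ := cnt_sub_le φ h1 h2
    have h4 : cnt φ (Λ * (X / Λ)) (Λ * (L / Λ + 2)) ≤ (L / Λ + 2 : ℕ) * ((d - ε) * Λ) := by
      rw [cnt_blocks]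
      refine (sum_le_card_nsmul _ _ ((d - ε) * Λ) fun s _ => ?_).trans (by simp)
      rw [← mul_add]
      exact (hn _).le
    have h5 : ((Λ * (L / Λ) : ℕ) : ℝ) ≤ L := by exact_mod_cast Nat.mul_div_le L Λ
    have := cnt_nonneg φ (Λ * (X / Λ)) L1
    have := cnt_nonneg φ (X + L) L2
    have : (0 : ℝ) ≤ η * L := by positivity
    push_cast at h4 h5
    nlinarith
  have := bd_le this
  linarith

/-- all subprogressions are tight on the same intervals -/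
lemma joint (h : d ≤ bd φ) {Q : ℕ} (hU : ∀ t < Q, Up (ap φ Q t) d) {ε : ℝ} (hε : 0 < ε) :
    ∃ C : ℝ, ∀ L : ℕ, ∃ X, ∀ t < Q, (d - ε) * L - C ≤ cnt (ap φ Q t) X L := by
  have hη : 0 < ε / (2 * Q + 1) := by positivity
  have h1 : ∀ t, ∃ C : ℝ, t < Q → ∀ X L, cnt (ap φ Q t) X L ≤ (d + ε / (2 * Q + 1)) * L + C := by
    intro t
    by_cases ht : t < Q
    · obtain ⟨C, hC⟩ := hU t ht _ hη
      exact ⟨C, fun _ => hC⟩
    · exact ⟨0, fun h => absurd h ht⟩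
  choose C hC using h1
  refine ⟨∑ t ∈ range Q, |C t|, fun L => ?_⟩
  obtain ⟨x, hx⟩ := lo_len h hη (Q * L)
  refine ⟨L * x, fun t ht => ?_⟩
  rw [mul_assoc, cnt_ap] at hx
  have h2 : ∑ s ∈ range Q, (((d + ε / (2 * Q + 1)) * L + |C s|) - cnt (ap φ Q s) (L * x) L) ≥
      ((d + ε / (2 * Q + 1)) * L + |C t|) - cnt (ap φ Q t) (L * x) L := by
    refine single_le_sum (f := fun s => ((d + ε / (2 * Q + 1)) * L + |C s|) -
      cnt (ap φ Q s) (L * x) L) (fun s hs => ?_) (mem_range.2 ht)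
    have := hC s (mem_range.1 hs) (L * x) L
    have := le_abs_self (C s)
    linarith
  rw [sum_sub_distrib, sum_add_distrib] at h2
  simp only [sum_const, card_range, nsmul_eq_mul] at h2
  have h3 : ε = (2 * Q + 1) * (ε / (2 * Q + 1)) := by field_simp
  have h4 : (0 : ℝ) ≤ ε / (2 * Q + 1) * L := by positivity
  have := abs_nonneg (C t)
  push_cast at hx
  generalize ε / (2 * Q + 1) = η at *
  subst h3
  nlinarith

lemma le_bd_ap (h : d ≤ bd φ) {Q : ℕ} (hU : ∀ t < Q, Up (ap φ Q t) d) {t : ℕ} (ht : t < Q) :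
    d ≤ bd (ap φ Q t) := by
  refine le_bd fun ε hε => ?_
  obtain ⟨C, hC⟩ := joint h hU hε
  refine ⟨C, fun L => ⟨L, le_rfl, ?_⟩⟩
  obtain ⟨X, hX⟩ := hC L
  exact ⟨X, hX t ht⟩

lemma le_bd_and (h : d ≤ bd φ) {Q : ℕ} (hU : ∀ t < Q, Up (ap φ Q t) d) {t t' : ℕ} (ht : t < Q)
    (ht' : t' < Q) (hψ : Up ψ d) (h1 : ∀ m, ap φ Q t m → ψ m) (h2 : ∀ m, ap φ Q t' m → ψ m) :
    d ≤ bd fun m => ap φ Q t m ∧ ap φ Q t' m := by
  refine le_bd fun ε hε => ?_
  obtain ⟨C, hC⟩ := joint h hU (show 0 < ε / 3 by linarith)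
  obtain ⟨C', hC'⟩ := hψ (ε / 3) (by linarith)
  refine ⟨2 * C + C', fun L => ⟨L, le_rfl, ?_⟩⟩
  obtain ⟨X, hX⟩ := hC L
  refine ⟨X, ?_⟩
  have h3 : cnt (ap φ Q t) X L + cnt (ap φ Q t') X L ≤
      cnt (fun m => ap φ Q t m ∧ ap φ Q t' m) X L + cnt ψ X L := by
    simp only [cnt, ← sum_add_distrib]
    refine sum_le_sum fun j _ => ?_
    have := h1 (X + j)
    have := h2 (X + j)
    by_cases a : ap φ Q t (X + j) <;> by_cases b : ap φ Q t' (X + j) <;>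
      simp_all [ind_pos, ind_neg, ind_nonneg]
  have := hX t ht
  have := hX t' ht'
  have := hC' X L
  linarith

lemma bd_le_of_ap {Q : ℕ} (hQ : 0 < Q) (hU : ∀ t < Q, Up (ap φ Q t) d) : bd φ ≤ d := by
  by_contra hn
  have h1 : ∀ t < Q, Up (ap φ Q t) (bd φ) := fun t ht =>
    up_of_le ((bd_le (hU t ht)).trans (not_le.1 hn).le)
  exact hn ((le_bd_ap le_rfl h1 hQ).trans (bd_le (hU 0 hQ)))

lemma sub_def {η C : ℝ} (hC : ∀ X L, cnt φ X L ≤ (d + η) * L + C) (hη : 0 ≤ η)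
    {X L X' L' : ℕ} (h1 : X ≤ X') (h2 : X' + L' ≤ X + L) :
    cnt φ X L - d * L - η * L - 2 * C ≤ cnt φ X' L' - d * L' := by
  obtain ⟨L1, L2, rfl, h3⟩ := cnt_sub_le φ h1 h2
  have := hC X L1
  have := hC (X' + L') L2
  have : (0 : ℝ) ≤ η * L' := by positivity
  push_cast
  linarith

/-- a window without errors in which `φ` has bounded gaps -/
lemma good_window (hd : 0 < d) (h : d ≤ bd φ) (hψ : Up ψ d) (hφ : ∀ m, φ m → ψ m) (c : ℕ) :
    ∃ P₀, ∀ P, P₀ ≤ P → ∃ X, (∀ j < c * P, ψ (X + j) → φ (X + j)) ∧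
      ∀ X', X ≤ X' → X' + P ≤ X + c * P → ∃ j < P, φ (X' + j) := by
  set η : ℝ := d / (8 * (c + 1)) with hη
  have hη0 : 0 < η := by positivity
  have hη1 : d = 8 * (c + 1) * η := by rw [hη]; field_simp
  obtain ⟨C, hC0, hC⟩ := (hψ.mono 0 hφ).const hη0
  obtain ⟨P₀, hP⟩ := exists_neg hη0 C
  refine ⟨P₀ + 1, fun P hP1 => ?_⟩
  have hP2 := hP P (by omega)
  set Λ : ℕ := (c + 1) * P with hΛ
  have hΛ0 : (0 : ℝ) < Λ := by exact_mod_cast (by rw [hΛ]; exact Nat.mul_pos (by omega) (by omega))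
  have hΛ1 : (Λ : ℝ) = (c + 1) * P := by rw [hΛ]; push_cast; ring
  have hPΛ : (P : ℝ) ≤ Λ := by
    rw [hΛ1]
    have : (0 : ℝ) ≤ c * P := by positivity
    linarith
  have key : ∃ X, cnt ψ X Λ - cnt φ X Λ < 1 ∧ d * Λ - cnt φ X Λ ≤ 4 * η * Λ := by
    by_contra hn
    push Not at hn
    have hε : 0 < η / (1 + 8 * η * Λ) := by positivity
    have hε1 : η = η / (1 + 8 * η * Λ) * (1 + 8 * η * Λ) := by field_simp
    obtain ⟨C', hC'⟩ := hψ _ hε
    obtain ⟨N, hN⟩ := exists_neg (show 0 < η * Λ by positivity) (4 * η * Λ * C')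
    have hN := hN N le_rfl
    obtain ⟨x, hx⟩ := lo_len h hε (Λ * N)
    have h1 := hC' (Λ * N * x) (Λ * N)
    have h2 : (N : ℝ) * (4 * η * Λ) ≤ ∑ s ∈ range N, ((d * Λ - cnt φ (Λ * N * x + Λ * s) Λ +
        2 * η * Λ) + 4 * η * Λ *
          (cnt ψ (Λ * N * x + Λ * s) Λ - cnt φ (Λ * N * x + Λ * s) Λ)) := by
      refine le_trans (by simp) (card_nsmul_le_sum (range N) _ (4 * η * Λ) fun s _ => ?_)
      have h3 := hC (Λ * N * x + Λ * s) Λ
      have h4 : cnt φ (Λ * N * x + Λ * s) Λ ≤ cnt ψ (Λ * N * x + Λ * s) Λ :=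
        cnt_mono fun _ _ => hφ _
      have h5 : 0 < η * Λ := by positivity
      have h6 : η * P ≤ η * Λ := by gcongr
      by_cases h7 : cnt ψ (Λ * N * x + Λ * s) Λ - cnt φ (Λ * N * x + Λ * s) Λ < 1
      · have := hn _ h7
        nlinarith
      · nlinarith
    rw [sum_add_distrib, ← mul_sum, sum_add_distrib, sum_sub_distrib, sum_sub_distrib,
      ← cnt_blocks, ← cnt_blocks] at h2
    simp only [sum_const, card_range, nsmul_eq_mul] at h2
    push_cast at hx h1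
    generalize η / (1 + 8 * η * Λ) = ε at *
    have h8 : 4 * η * Λ * (cnt ψ (Λ * N * x) (Λ * N) - cnt φ (Λ * N * x) (Λ * N)) ≤
        4 * η * Λ * (2 * ε * (Λ * N) + C') := by
      gcongr
      linarith
    have h9 : η * (Λ * N) = ε * (Λ * N) + 4 * η * Λ * (2 * ε * (Λ * N)) := by
      conv_lhs => rw [hε1]
      ring
    nlinarith
  obtain ⟨X, h1, h2⟩ := key
  have hc : c * P ≤ Λ := by rw [hΛ]; nlinarith
  refine ⟨X, fun j hj h3 => ?_, fun X' h3 h4 => exists_of_cnt_pos ?_⟩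
  · by_contra h4
    refine absurd h1 (not_lt.2 ?_)
    simp only [cnt, ← sum_sub_distrib]
    refine le_trans ?_ (single_le_sum (fun i _ => ?_) (mem_range.2 (hj.trans_le hc)))
    · rw [ind_pos h3, ind_neg h4, sub_zero]
    · exact sub_nonneg.2 (ind_mono (hφ _))
  · have := sub_def hC hη0.le h3 (h4.trans (Nat.add_le_add_left hc X))
    have h5 : d * P = 8 * η * Λ := by rw [hΛ1, hη1]; ring
    have h6 : η * P ≤ η * Λ := by gcongr
    have h7 : 0 < η * Λ := by positivity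
    nlinarith

/-- long progressions from a tight correlation -/
lemma long_of_and (hd : 0 < d) (hU : Up φ d) {e : ℕ} (h : d ≤ bd fun m => φ m ∧ φ (m + e))
    (L : ℕ) : ∃ m, ∀ l < L, φ (m + l * e) := by
  obtain ⟨P₀, hP⟩ := good_window hd h hU (fun _ h => h.1) 2
  obtain ⟨X, h1, h2⟩ := hP (P₀ + L * e) (by omega)
  obtain ⟨j, hj, h3⟩ := h2 X le_rfl (by omega)
  refine ⟨X + j, fun l hl => ?_⟩
  induction l with
  | zero => simpa using h3.1
  | succ l ih =>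
    have h4 : l * e ≤ L * e := Nat.mul_le_mul_right _ (by omega)
    have := (h1 (j + l * e) (by omega) (by rw [← add_assoc]; exact ih (by omega))).2
    rwa [show X + (j + l * e) + e = X + j + (l + 1) * e by ring] at this

lemma pos_of_cover {S : Type} [Finite S] {F : S → ℕ → Prop} (hF : ∀ s, Up (F s) d)
    (h : ∀ y, 1 ≤ y → ∃ s, F s y) : 0 < d := by
  have := Fintype.ofFinite S
  by_contra hd
  have hε : (0 : ℝ) < 1 / (2 * Fintype.card S + 1) := by positivity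
  choose C hC using fun s => hF s _ hε
  obtain ⟨L, hL⟩ := exists_neg (a := 1 / 2) (by norm_num) (∑ s, C s)
  have h1 := hL L le_rfl
  have h2 : (L : ℝ) ≤ ∑ s, cnt (F s) 1 L := by
    simp only [cnt]
    rw [sum_comm]
    refine le_trans (by simp) (card_nsmul_le_sum (range L) _ (1 : ℝ) fun j _ => ?_)
    obtain ⟨s, hs⟩ := h (1 + j) (by omega)
    refine le_trans ?_ (single_le_sum (fun i _ => ?_) (mem_univ s))
    · rw [ind_pos hs]
    · exact ind_nonneg _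
  have h3 := sum_le_sum fun s (_ : s ∈ univ) => hC s 1 L
  rw [sum_add_distrib] at h3
  simp only [sum_const, card_univ, nsmul_eq_mul] at h3
  have h4 : (1 : ℝ) = (2 * Fintype.card S + 1) * (1 / (2 * Fintype.card S + 1)) := by field_simp
  generalize 1 / (2 * (Fintype.card S : ℝ) + 1) = η at *
  have h5 : (0 : ℝ) ≤ L := by positivity
  have h6 : (0 : ℝ) ≤ Fintype.card S := by positivity
  have h7 : Fintype.card S * (d * L) ≤ 0 :=
    mul_nonpos_of_nonneg_of_nonpos h6 (mul_nonpos_of_nonpos_of_nonneg (not_lt.1 hd) h5)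
  have h8 : (L : ℝ) = (2 * Fintype.card S + 1) * η * L := by rw [← h4, one_mul]
  have h9 : 0 ≤ η * L := by positivity
  nlinarith

end Pool.Agent.P.MP_05c0aa_nt
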