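import Pool.Agent.P.MP_05c0aa_nt.Step

/-! Closed automatic sets contain long progressions of bounded difference. -/

namespace Pool.Agent.P.MP_05c0aa_nt

variable {S : Type} {k : ℕ} {σ : ℕ → S} {a : ℕ → Prop} {p q u w : ℕ} {D : ℝ}

/-- arbitrarily long progressions of difference `M` -/
def Lg (a : ℕ → Prop) (M : ℕ) : Prop := ∀ L, ∃ n, ∀ l < L, a (n + l * M)

lemma Sys.tight (h : Sys p q u w a) (hU : ∀ M ρ, 0 < M → Up (ap a M ρ) D) {M ρ : ℕ} (hM : 0 < M)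
    (hD : D ≤ bd (ap a M ρ)) : ∃ M1, 0 < M1 ∧ ∀ i, ∃ μ < M1, ∀ M0, M1 ∣ M0 → ∀ c < M0,
      ∀ c' < M0, c % M1 = μ → c' % M1 = μ → ∀ ψ, Up ψ D →
      (∀ m, ap a (u ^ i * M0) (u ^ i * c) m → ψ m) → (∀ m, ap a (u ^ i * M0) (u ^ i * c') m → ψ m) →
      D ≤ bd fun m => ap a (u ^ i * M0) (u ^ i * c) m ∧ ap a (u ^ i * M0) (u ^ i * c') m := by
  obtain ⟨M1, ρ1, h1, h2, h3, h4⟩ := h.core hU hM hD
  refine ⟨M1, h1, fun i => ?_⟩
  have hu := h.facts.1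
  have h5 : (u ^ i).Coprime M1 := by
    obtain ⟨j, -, rfl⟩ := h.hu
    exact (h2.symm.pow_left j).pow_left i
  obtain ⟨μ, h6, h7⟩ := Nat.exists_mul_mod_eq_of_coprime ρ1 h5 h1.ne'
  refine ⟨μ, h6, ?_⟩
  rintro _ ⟨M', rfl⟩ c hc c' hc' e e' ψ hψ
  have h8 : ∀ c < M1 * M', c % M1 = μ → u ^ i * c / M1 < u ^ i * M' ∧
      ap a (u ^ i * (M1 * M')) (u ^ i * c) = ap (ap a M1 ρ1) (u ^ i * M') (u ^ i * c / M1) := by
    intro c hc e
    rw [mul_left_comm]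
    refine ap_sub a (by rw [mul_left_comm]; gcongr) ?_
    rw [← Nat.mod_eq_of_lt h3, ← h7, ← e, Nat.mul_mod_mod]
  have hM' : 0 < M' := Nat.pos_of_ne_zero fun e => by simp [e] at hc
  rw [(h8 c hc e).2, (h8 c' hc' e').2]
  exact le_bd_and h4 (fun t _ => by rw [ap_ap]; exact hU _ _ (by positivity)) (h8 c hc e).1
    (h8 c' hc' e').1 hψ

lemma longA [Finite S] (hk : 2 ≤ k) (hσ : Aut k σ) (ha : Dz σ a) (hD : 0 < D)
    (hU : ∀ M ρ, 0 < M → Up (ap a M ρ) D) {sh lo M1 : ℕ} (h1 : 0 < sh) (h2 : sh < lo)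
    (hc : lo.Coprime k) (hM1 : 0 < M1) (key : ∀ i, ∃ μ < M1, ∀ M0, M1 ∣ M0 → ∀ c < M0,
      ∀ c' < M0, c % M1 = μ → c' % M1 = μ →
      ap a (sh ^ i * M0) (sh ^ i * c) = ap a (sh ^ i * M0) (sh ^ i * c') →
      D ≤ bd fun m => ap a (lo ^ i * M0) (lo ^ i * c) m ∧ ap a (lo ^ i * M0) (lo ^ i * c') m) :
    ∃ M, 0 < M ∧ Lg a M := by
  obtain ⟨H, hH, hHk, hP⟩ := exists_pref hσ.pair hk
  obtain ⟨r2, g, hg, hgk, hd⟩ := split k hM1
  set M2 := k ^ r2 * H with hM2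
  set M0 := k ^ r2 * (g * H) with hM0
  have hM20 : 0 < M2 := by positivity
  have hM00 : 0 < M0 := by positivity
  have hd0 : M1 ∣ M0 := by rw [hM0, ← mul_assoc]; exact hd.mul_right _
  have : NeZero M2 := ⟨hM20.ne'⟩
  obtain ⟨C, hC⟩ := pigeon ((S → Prop) × (S → Prop) × ZMod M2)
  obtain ⟨i, hi⟩ : ∃ i, 2 * C * M0 * sh ^ i ≤ lo ^ i := by
    obtain ⟨i, hi⟩ := pow_unbounded_of_one_lt ((2 * C * M0 : ℕ) : ℝ)
      (show (1 : ℝ) < lo / sh from (one_lt_div (by positivity)).2 (by exact_mod_cast h2))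
    rw [div_pow, lt_div_iff₀ (by positivity)] at hi
    exact ⟨i, by exact_mod_cast hi.le⟩
  obtain ⟨r, hr⟩ : ∃ r, 2 * sh ^ i * M0 * (1 + C) < k ^ r := ⟨_, Nat.lt_pow_self hk⟩
  obtain ⟨μ, hμ, key⟩ := key i
  have hμ0 : μ < M0 := hμ.trans_le (Nat.le_of_dvd hM00 hd0)
  have hlo : 0 < lo ^ i := pow_pos (by omega) i
  have hsh : 0 < sh ^ i := pow_pos h1 i
  have hK : 0 < k ^ r := by positivity
  set v := k ^ r / lo ^ i with hv
  have hv1 : lo ^ i * v ≤ k ^ r := Nat.mul_div_le _ _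
  have hv2 : k ^ r < lo ^ i * (v + 1) := Nat.lt_mul_div_succ _ hlo
  let c : ℕ → ℕ := fun l => μ + l * (M0 * (v + 1))
  have hc1 : ∀ l ≤ C, sh ^ i * c l < k ^ r := by
    intro l hl
    have e1 : c l ≤ M0 + C * (M0 * (v + 1)) := add_le_add hμ0.le (by gcongr)
    have e2 := Nat.mul_le_mul_left (sh ^ i) e1
    have e3 := Nat.mul_le_mul_right v hi
    nlinarith
  have hc2 : ∀ l ≤ C, c l < k ^ r * M0 := fun l hl =>
    ((Nat.le_mul_of_pos_left _ hsh).trans_lt (hc1 l hl)).trans_le (Nat.le_mul_of_pos_right _ hM00)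
  have hc3 : ∀ l, c l % M1 = μ := fun l => by
    obtain ⟨d, hd⟩ := hd0
    rw [show c l = μ + M1 * (l * d * (v + 1)) by simp only [c]; rw [hd]; ring,
      Nat.add_mul_mod_self_left, Nat.mod_eq_of_lt hμ]
  obtain ⟨l, l', h3, h4, h5⟩ := hC fun l => (kerT σ (ap a (k ^ r) (sh ^ i * c l)),
    kerT σ (ap a (k ^ r) (lo ^ i * c l % k ^ r)), (lo ^ i * c l / k ^ r : ℕ))
  simp only [Prod.mk.injEq] at h5
  obtain ⟨a1, a2, a3⟩ := h5
  have a1 := (ha.det hσ r _ (hc1 l (by omega))).ext (ha.det hσ r _ (hc1 l' h4)) a1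
  have hb := ha.det hσ r _ (Nat.mod_lt (lo ^ i * c l) hK)
  have a2 := hb.ext (ha.det hσ r _ (Nat.mod_lt (lo ^ i * c l') hK)) a2
  have e1 : ∀ c, ap a (sh ^ i * (k ^ r * M0)) (sh ^ i * c) =
      ap (ap a (k ^ r) (sh ^ i * c)) (sh ^ i * M0) 0 := fun c => by
    rw [ap_ap, mul_left_comm, mul_zero, zero_add]
  have e2 : ∀ c, ap a (lo ^ i * (k ^ r * M0)) (lo ^ i * c) =
      ap (ap a (k ^ r) (lo ^ i * c % k ^ r)) (lo ^ i * M0) (lo ^ i * c / k ^ r) := fun c => by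
    rw [ap_ap, mul_left_comm, Nat.div_add_mod]
  have h6 := key (k ^ r * M0) (hd0.mul_left _) _ (hc2 l (by omega)) _ (hc2 l' h4) (hc3 l) (hc3 l')
    (by rw [e1, e1, a1])
  rw [e2, e2, ← a2] at h6
  have h7 : lo ^ i * c l / k ^ r < lo ^ i * c l' / k ^ r := by
    rw [Nat.lt_iff_add_one_le, ← Nat.add_div_right _ hK]
    refine Nat.div_le_div_right ?_
    obtain ⟨d, rfl⟩ := Nat.exists_eq_add_of_lt h3
    have e3 : c (l + d + 1) = c l + (d + 1) * (M0 * (v + 1)) := by simp only [c]; ring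
    have e4 : v + 1 ≤ (d + 1) * (M0 * (v + 1)) :=
      (Nat.le_mul_of_pos_left _ hM00).trans (Nat.le_mul_of_pos_left _ (by omega))
    have e5 := Nat.mul_le_mul_left (lo ^ i) e4
    rw [e3, mul_add (lo ^ i) (c l)]
    omega
  obtain ⟨δ, hδ⟩ := (Nat.modEq_iff_exists_eq_add h7.le).1 ((ZMod.natCast_eq_natCast_iff _ _ _).1 a3)
  have hδ0 : 0 < δ := Nat.pos_of_ne_zero fun e => by simp [e] at hδ; omega
  rw [hδ] at h6
  generalize lo ^ i * c l / k ^ r = e at h6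
  generalize lo ^ i * c l % k ^ r = ρ at h6 hb
  have h8 := stab hσ.pair hk hP (det_and hσ hb (Nat.lt_pow_self hk (n := M2 * δ)).le)
    (g := lo ^ i * (g * H)) (by positivity) ((hc.pow_left i).mul_left (hgk.mul_left hHk))
    ((dvd_mul_left H g).mul_left _) r2 e
  have h9 := long_of_and (φ := ap (ap a (k ^ r) ρ) M2 e) (e := δ) hD
    (by rw [ap_ap]; exact hU _ _ (by positivity)) (h6.trans (le_trans (bd_mono 0 fun m hm => ?_)
      (h8.trans (bd_mono 0 fun m hm => ?_))))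
  · refine ⟨k ^ r * M2 * δ, by positivity, fun L => ?_⟩
    obtain ⟨m, hm⟩ := h9 L
    refine ⟨k ^ r * (M2 * m + e) + ρ, fun l hl => ?_⟩
    have := hm l hl
    simp only [ap] at this
    convert this using 1
    ring
  · simp only [ap, add_zero] at hm ⊢
    rw [show k ^ r2 * (lo ^ i * (g * H)) = lo ^ i * M0 by rw [hM0]; ring, add_assoc]
    exact hm
  · simp only [ap, add_zero] at hm ⊢
    rwa [show M2 * (m + δ) + e = M2 * m + e + M2 * δ by ring]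

lemma Dz.iff' {T : Type} {τ : ℕ → T} {φ : ℕ → Prop} (h : Dz τ φ) {x y : ℕ} (e : τ x = τ y) :
    φ x ↔ φ y := ⟨h _ _ e, h _ _ e.symm⟩

/-- two nearly equal block lengths give a local period -/
lemma krebs (T : Type) [Finite T] : ∃ C : ℕ, ∀ (τ : ℕ → T) (φ ψ : ℕ → Prop) (Q δ X : ℕ),
    0 < δ → (C + 1) * δ ≤ Q → (∀ j < Q + δ, Dz τ (ap φ (Q + δ) j)) → (∀ j < Q, Dz τ (ap ψ Q j)) →
    (∀ j < (C + 2) * (Q + δ), φ (X + j) ↔ ψ (X + j)) → ∃ W π, X ≤ W ∧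
      W + (Q + δ) ≤ X + (C + 2) * (Q + δ) ∧ δ ≤ π ∧ π ≤ C * δ ∧
      ∀ z < Q + δ, φ (W + z) ↔ φ (W + z + π) := by
  obtain ⟨C, hC⟩ := pigeon (T × (Fin 4 → T))
  refine ⟨C, fun τ φ ψ Q δ X hδ hQ h1 h2 h3 => ?_⟩
  have hQ0 : 0 < Q := by nlinarith
  obtain ⟨x, a1, a2⟩ : ∃ x, X ≤ (Q + δ) * x ∧ (Q + δ) * x ≤ X + (Q + δ) :=
    ⟨X / (Q + δ) + 1, (Nat.lt_mul_div_succ X (by omega)).le, by
      rw [mul_add_one]
      exact Nat.add_le_add_right (Nat.mul_div_le _ _) _⟩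
  obtain ⟨x', s, a3, a4⟩ : ∃ x' s, s < Q ∧ (Q + δ) * x = Q * x' + s :=
    ⟨_, _, Nat.mod_lt _ hQ0, (Nat.div_add_mod _ _).symm⟩
  obtain ⟨i, j, b1, b2, b3⟩ := hC fun j => (τ (x + j), fun e => τ (x' + j + e))
  obtain ⟨b3, b4⟩ := Prod.mk.inj b3
  obtain ⟨d, rfl⟩ := Nat.exists_eq_add_of_lt b1
  have h4 : ∀ n, X ≤ n → n < X + (C + 2) * (Q + δ) → (φ n ↔ ψ n) := by
    intro n c1 c2
    obtain ⟨j, rfl⟩ := Nat.exists_eq_add_of_le c1
    exact h3 j (by omega)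
  have c0 : (Q + δ) * (i + d + 1) ≤ (Q + δ) * C := by gcongr
  have c1 : δ * (i + d + 1) ≤ δ * C := by gcongr
  refine ⟨(Q + δ) * (x + i), δ * (d + 1), by nlinarith, by nlinarith, by nlinarith, by nlinarith,
    fun z hz => ?_⟩
  have c2 : (s + δ * (i + d + 1) + z) / Q < 4 := Nat.div_lt_of_lt_mul (by nlinarith)
  have c3 := (h2 _ (Nat.mod_lt (s + δ * (i + d + 1) + z) hQ0)).iff' (congrFun b4 ⟨_, c2⟩)
  have c4 := Nat.div_add_mod (s + δ * (i + d + 1) + z) Q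
  simp only [ap] at c3
  refine ((h1 z hz).iff' b3).trans ?_
  rw [ap, h4 _ (by nlinarith) (by nlinarith), h4 _ (by nlinarith) (by nlinarith)]
  convert c3.symm using 2 <;> nlinarith

/-- a local period is compatible with a further block length -/
lemma period2 (T : Type) [Finite T] : ∃ C : ℕ, ∀ (τ : ℕ → T) (φ : ℕ → Prop) (P' π W P L : ℕ),
    0 < π → π ≤ P' → (C + 2) * P' ≤ P → π + L * C * P' ≤ P → (∀ j < P', Dz τ (ap φ P' j)) →
    (∀ z < P, φ (W + z) ↔ φ (W + z + π)) → (∃ z < P, φ (W + z)) →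
    ∃ j n, 1 ≤ j ∧ j ≤ C ∧ ∀ l < L, φ (n + l * (j * P')) := by
  obtain ⟨C, hC⟩ := pigeon T
  refine ⟨C, fun τ φ P' π W P L hπ h1 h2 h3 h4 h5 ⟨z0, h6, h7⟩ => ?_⟩
  have : NeZero π := ⟨hπ.ne'⟩
  let F : ZMod π → Prop := fun x => φ (W + x.val)
  have hF : ∀ z < P, φ (W + z) ↔ F z := by
    intro z hz
    induction z using Nat.strong_induction_on with
    | _ z ih =>
      rcases Nat.lt_or_ge z π with h | h
      · simp only [F]
        rw [ZMod.val_natCast, Nat.mod_eq_of_lt h]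
      · obtain ⟨z, rfl⟩ := Nat.exists_eq_add_of_le' h
        rw [← add_assoc, ← h5 z (by omega), ih z (by omega) (by omega)]
        simp
  obtain ⟨x, z1, a1, a2⟩ : ∃ x z1, P' * x = W + z1 ∧ z1 ≤ P' := by
    obtain ⟨z1, hz⟩ := Nat.exists_eq_add_of_le (Nat.lt_mul_div_succ W (show 0 < P' by omega)).le
    refine ⟨_, z1, hz, ?_⟩
    have := Nat.mul_div_le W P'
    rw [mul_add_one] at hz
    omega
  obtain ⟨i, j, b1, b2, b3⟩ := hC fun j => τ (x + j)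
  obtain ⟨d, rfl⟩ := Nat.exists_eq_add_of_lt b1
  have c0 : P' * (i + d + 1) ≤ P' * C := by gcongr
  have h8 : ∀ y, F y ↔ F (y + ((d + 1) * P' : ℕ)) := by
    intro y
    have c1 := ZMod.val_lt (y - ((z1 + P' * i : ℕ) : ZMod π))
    have c2 := (h4 _ (c1.trans_le h1)).iff' b3
    have c3 := ZMod.natCast_zmod_val (y - ((z1 + P' * i : ℕ) : ZMod π))
    generalize (y - ((z1 + P' * i : ℕ) : ZMod π)).val = z at c1 c2 c3
    simp only [ap] at c2
    rw [show P' * (x + i) + z = W + (z1 + P' * i + z) by rw [mul_add, a1]; ring,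
      show P' * (x + (i + d + 1)) + z = W + (z1 + P' * (i + d + 1) + z) by rw [mul_add, a1]; ring,
      hF _ (by nlinarith), hF _ (by nlinarith)] at c2
    convert c2 using 2
    · push_cast at c3 ⊢
      linear_combination -c3
    · push_cast at c3 ⊢
      linear_combination -c3
  refine ⟨d + 1, W + z0 % π, by omega, by omega, fun l hl => ?_⟩
  have c1 := Nat.mod_lt z0 hπ
  have c2 : l * ((d + 1) * P') ≤ L * (C * P') := by gcongr; omega
  rw [add_assoc, hF _ (by nlinarith)]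
  clear hl c2
  induction l with
  | zero => simpa using (hF _ h6).1 h7
  | succ l ih =>
    convert (h8 _).1 ih using 1
    push_cast
    ring

lemma fix_diff [Finite S] (hk : 0 < k) (hσ : Aut k σ) (ha : Dz σ a) {C g : ℕ} (hg : 0 < g)
    (h : ∀ L, ∃ n t j, 1 ≤ j ∧ j ≤ C ∧ ∀ l < L, a (n + l * (k ^ t * (j * g)))) :
    ∃ M, 0 < M ∧ Lg a M := by
  choose n t j h1 h2 h3 using h
  obtain ⟨s, hs⟩ := pigeon_inf fun L => (kerT σ (ap a (k ^ t L) (n L % k ^ t L)),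
    (⟨j L, Nat.lt_succ_of_le (h2 L)⟩ : Fin (C + 1)))
  obtain ⟨L0, -, h4⟩ := hs 0
  have := h1 L0
  refine ⟨k ^ t L0 * (j L0 * g), by positivity, fun L => ?_⟩
  obtain ⟨L1, h5, h6⟩ := hs L
  obtain ⟨a1, a2⟩ := Prod.mk.inj (h6.trans h4.symm)
  have a1 := (ha.det hσ _ _ (Nat.mod_lt _ (by positivity))).ext
    (ha.det hσ _ _ (Nat.mod_lt _ (by positivity))) a1
  have a2 : j L1 = j L0 := congrArg Fin.val a2
  refine ⟨k ^ t L0 * (n L1 / k ^ t L1) + n L0 % k ^ t L0, fun l hl => ?_⟩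
  have a3 : ap a (k ^ t L1) (n L1 % k ^ t L1) (n L1 / k ^ t L1 + l * (j L1 * g)) := by
    have := h3 L1 l (by omega)
    rw [← Nat.div_add_mod (n L1) (k ^ t L1)] at this
    simp only [ap]
    convert this using 1
    ring
  rw [a1, a2] at a3
  simp only [ap] at a3
  convert a3 using 1
  ring

lemma blocks (hσ : Aut k σ) (hk : 0 < k) (ha : Dz σ a) {U c P r g : ℕ} (hc : c < U)
    (e : U * P = k ^ r * g) : ∀ j < P, Dz (sup σ g) (ap (ap a U c) P j) := by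
  intro j hj
  rw [ap_ap, e]
  refine dz_sup hσ hk ha ?_
  rw [← e]
  nlinarith

lemma Sys.longB [Finite S] (h : Sys p q u w a) (hk : 2 ≤ k) (hσ : Aut k σ) (ha : Dz σ a)
    (hD : 0 < D) (hU : ∀ M ρ, 0 < M → Up (ap a M ρ) D) {M1 : ℕ} (hM1 : 0 < M1)
    (key : ∀ i, ∃ μ < M1, ∀ M0, M1 ∣ M0 → 0 < M0 → D ≤ bd (ap a (u ^ i * M0) (u ^ i * μ)))
    (hp : p ∣ k) (hq : q ∣ k) : ∃ M, 0 < M ∧ Lg a M := by
  obtain ⟨r2, g, hg, -, hd⟩ := split k hM1
  obtain ⟨C1, hC1⟩ := krebs (Fin g → S)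
  obtain ⟨C2, hC2⟩ := period2 (Fin g → S)
  refine fix_diff (by omega) hσ ha (C := C2) hg fun L => ?_
  set M0 := k ^ r2 * g with hM0
  have hM00 : 0 < M0 := by positivity
  set N := (C1 + 1) * (1 + (L + 1) * (C2 + 2) * k) with hN
  obtain ⟨hu2, hw2, huw⟩ := h.facts
  obtain ⟨i, -, b, a1, a2⟩ := rot (x := (w : ℝ) / u) (by positivity) (by exact_mod_cast hk)
    (ind_frac (k := k) hu2 hw2 huw) (α := 1) (β := 1 + 1 / N) one_pos
    (by simp only [lt_add_iff_pos_right]; positivity) 0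
  obtain ⟨ju, -, hu⟩ := h.hu
  obtain ⟨jw, -, hw⟩ := h.hw
  obtain ⟨P0, hP0⟩ : u ^ i ∣ k ^ ((ju + jw) * i + b.toNat) := by
    rw [hu, ← pow_mul]
    exact (pow_dvd_pow_of_dvd hp _).trans (pow_dvd_pow _ (by nlinarith [Nat.zero_le b.toNat]))
  obtain ⟨Q0, hQ0⟩ : w ^ i ∣ k ^ ((ju + jw) * i + (-b).toNat) := by
    rw [hw, ← pow_mul]
    exact (pow_dvd_pow_of_dvd hq _).trans (pow_dvd_pow _ (by nlinarith [Nat.zero_le (-b).toNat]))
  have a3 : ((w : ℝ) / u) ^ i * k ^ b = P0 / Q0 := by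
    have e1 : (P0 : ℝ) = k ^ ((ju + jw) * i + b.toNat) / u ^ i := by
      rw [eq_div_iff (by positivity), mul_comm]
      exact_mod_cast hP0.symm
    have e2 : (Q0 : ℝ) = k ^ ((ju + jw) * i + (-b).toNat) / w ^ i := by
      rw [eq_div_iff (by positivity), mul_comm]
      exact_mod_cast hQ0.symm
    have e3 : (k : ℝ) ^ b = k ^ b.toNat / k ^ (-b).toNat := by
      rw [← zpow_natCast, ← zpow_natCast, ← zpow_sub₀ (by positivity), Int.toNat_sub_toNat_neg]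
    rw [e1, e2, e3, div_pow, pow_add, pow_add]
    field_simp
  generalize (ju + jw) * i + b.toNat = r at hP0
  generalize (ju + jw) * i + (-b).toNat = r' at hQ0
  have hQ1 : 0 < Q0 := Nat.pos_of_ne_zero fun e => by
    rw [e, mul_zero] at hQ0
    exact absurd hQ0 (by positivity)
  rw [a3, one_lt_div (by positivity)] at a1
  obtain ⟨δ, rfl⟩ := Nat.exists_eq_add_of_lt (show Q0 < P0 by exact_mod_cast a1)
  rw [add_assoc] at hP0 a3
  have a4 : N * (δ + 1) ≤ Q0 := by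
    rw [a3, div_lt_iff₀ (by positivity), add_mul, one_mul, one_div_mul_eq_div] at a2
    push_cast at a2
    have := (lt_div_iff₀' (by positivity)).1 (lt_of_add_lt_add_left a2)
    exact_mod_cast this.le
  obtain ⟨μ, hμ, key⟩ := key i
  have hμ0 : μ < M0 := hμ.trans_le (Nat.le_of_dvd hM00 hd)
  have hφ : ∀ m, ap a (u ^ i * M0) (u ^ i * μ) m → ap a (w ^ i * M0) (w ^ i * μ) m := by
    intro m hm
    simp only [ap, mul_assoc, ← mul_add] at hm ⊢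
    exact h.pow i _ hm
  obtain ⟨P₀, hP⟩ := good_window hD (key M0 hd hM00) (hU _ _ (by positivity)) hφ (C1 + 2)
  obtain ⟨K, R, hR, b1, b2⟩ : ∃ K R, K = k ^ R ∧ P₀ ≤ K ∧ Q0 + (δ + 1) ≤ K :=
    ⟨_, P₀ + (Q0 + (δ + 1)), rfl, by have := Nat.lt_pow_self hk (n := P₀ + (Q0 + (δ + 1))); omega,
      by have := Nat.lt_pow_self hk (n := P₀ + (Q0 + (δ + 1))); omega⟩
  have b3 : ∀ s, u ^ i * M0 * ((Q0 + (δ + 1)) * k ^ s) = k ^ (r2 + r + s) * g := fun s => by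
    rw [pow_add, pow_add, hP0, hM0]
    ring
  have b4 : ∀ s, ∀ j < (Q0 + (δ + 1)) * k ^ s,
      Dz (sup σ g) (ap (ap a (u ^ i * M0) (u ^ i * μ)) ((Q0 + (δ + 1)) * k ^ s) j) := fun s =>
    blocks hσ (by omega) ha (by gcongr) (b3 s)
  obtain ⟨X, b5, b6⟩ := hP (Q0 * K + (δ + 1) * K) (by nlinarith)
  have b7 : N * ((δ + 1) * K) ≤ Q0 * K := by rw [← mul_assoc]; gcongr
  have hK : 0 < K := by omega
  have b8 : 0 < (δ + 1) * K := by positivity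
  obtain ⟨W, π, c1, c2, c3, c4, c5⟩ := hC1 (sup σ g) _ (ap a (w ^ i * M0) (w ^ i * μ)) (Q0 * K)
    ((δ + 1) * K) X b8 (le_trans (by gcongr; exact Nat.le_mul_of_pos_right _ (by positivity)) b7)
    (by rw [← add_mul, hR]; exact b4 R)
    (blocks hσ (by omega) ha (r := r2 + r' + R) (by gcongr) (by
      rw [pow_add, pow_add, hQ0, hM0, hR]
      ring)) fun j hj => ⟨hφ _, b5 j hj⟩
  have c6 : K ≤ π := le_trans (Nat.le_mul_of_pos_left _ (by omega)) c3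
  obtain ⟨s, c7, c8⟩ : ∃ s, π ≤ (Q0 + (δ + 1)) * k ^ s ∧ (Q0 + (δ + 1)) * k ^ s ≤ k * π := by
    have hex : ∃ s, π ≤ (Q0 + (δ + 1)) * k ^ s :=
      ⟨π, (Nat.lt_pow_self hk).le.trans (Nat.le_mul_of_pos_left _ (by omega))⟩
    refine ⟨Nat.find hex, Nat.find_spec hex, ?_⟩
    rcases hs : Nat.find hex with _ | s
    · nlinarith
    · have := Nat.find_min hex (show s < Nat.find hex by omega)
      rw [pow_succ]
      nlinarith
  have c9 : (1 + (L + 1) * (C2 + 2) * k) * π ≤ Q0 * K := by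
    refine le_trans ?_ b7
    rw [hN, mul_comm (C1 + 1), mul_assoc _ (C1 + 1)]
    exact Nat.mul_le_mul_left _ (by nlinarith)
  have c10 := b3 s
  have c11 := b4 s
  generalize (Q0 + (δ + 1)) * k ^ s = P' at c7 c8 c10 c11
  have c12 : (L + 1) * (C2 + 2) * P' ≤ (L + 1) * (C2 + 2) * (k * π) := by gcongr
  obtain ⟨j, n, d1, d2, d3⟩ := hC2 (sup σ g) _ P' π W _ L (by omega) c7
    (by nlinarith [Nat.zero_le (L * (C2 + 2) * P')])
    (by nlinarith [Nat.zero_le (L * P'), Nat.zero_le (C2 * P')]) c11 c5 (b6 W c1 c2)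
  refine ⟨u ^ i * M0 * n + u ^ i * μ, r2 + r + s, j, d1, d2, fun l hl => ?_⟩
  have := d3 l hl
  simp only [ap] at this
  convert this using 1
  linear_combination l * j * c10.symm

theorem Sys.long [Finite S] (h : Sys p q u w a) (hk : 2 ≤ k) (hσ : Aut k σ) (ha : Dz σ a)
    (hinf : ∀ N, ∃ n, N ≤ n ∧ a n)
    (hc : u < w ∧ w.Coprime k ∨ w < u ∧ u.Coprime k ∨ p ∣ k ∧ q ∣ k) : ∃ M, 0 < M ∧ Lg a M := by
  obtain ⟨D, hU, M, ρ, hM, hD⟩ := exists_max hσ hk ha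
  have hD0 := h.pos hk hσ ha hinf hU
  obtain ⟨M1, hM1, key⟩ := h.tight hU hM hD
  obtain ⟨hu2, hw2, -⟩ := h.facts
  have hφ : ∀ i M0 c m, ap a (u ^ i * M0) (u ^ i * c) m → ap a (w ^ i * M0) (w ^ i * c) m := by
    intro i M0 c m hm
    simp only [ap, mul_assoc, ← mul_add] at hm ⊢
    exact h.pow i _ hm
  rcases hc with ⟨h1, h2⟩ | ⟨h1, h2⟩ | ⟨h1, h2⟩
  · refine longA hk hσ ha hD0 hU (by omega) h1 h2 hM1 fun i => ?_
    obtain ⟨μ, h3, h4⟩ := key i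
    refine ⟨μ, h3, fun M0 a1 c a2 c' a3 a4 a5 a6 => ?_⟩
    exact (h4 M0 a1 c a2 c' a3 a4 a5 _ (hU _ _ (by have : 0 < M0 := by omega
                                                   positivity)) (fun _ h => h)
      (fun _ h => a6 ▸ h)).trans (bd_mono 0 fun m hm => ⟨hφ _ _ _ _ hm.1, hφ _ _ _ _ hm.2⟩)
  · refine longA hk hσ ha hD0 hU (by omega) h1 h2 hM1 fun i => ?_
    obtain ⟨μ, h3, h4⟩ := key i
    refine ⟨μ, h3, fun M0 a1 c a2 c' a3 a4 a5 a6 => ?_⟩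
    exact h4 M0 a1 c a2 c' a3 a4 a5 _ (hU _ _ (by have : 0 < M0 := by omega
                                                  positivity)) (hφ _ _ _)
      (fun _ h => a6 ▸ hφ _ _ _ _ h)
  · refine h.longB hk hσ ha hD0 hU hM1 (fun i => ?_) h1 h2
    obtain ⟨μ, h3, h4⟩ := key i
    refine ⟨μ, h3, fun M0 a1 a2 => ?_⟩
    have a3 := h3.trans_le (Nat.le_of_dvd a2 a1)
    exact (h4 M0 a1 μ a3 μ a3 (Nat.mod_eq_of_lt h3) (Nat.mod_eq_of_lt h3) _
      (hU _ _ (by positivity)) (fun _ h => h) fun _ h => h).trans (bd_mono 0 fun m hm => hm.1)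

end Pool.Agent.P.MP_05c0aa_nt
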