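import Pool.Agent.P.MP_05c0aa_nt.Conn

/-! An automatic set closed under the map is finite or cofinite. -/

namespace Pool.Agent.P.MP_05c0aa_nt

variable {S : Type} {k : ℕ} {σ : ℕ → S} {a : ℕ → Prop}

lemma Lg.shift {M : ℕ} (h : Lg (fun n => a (n + 1)) M) : Lg a M := fun L => by
  obtain ⟨n, hn⟩ := h L
  exact ⟨n + 1, fun l hl => by rw [add_right_comm]; exact hn l hl⟩

theorem not_both [Finite S] (hk : 2 ≤ k) (hσ : Aut k σ) (ha : Dz σ a) (i1 : Imp a 2 0 3 0)
    (i2 : Imp a 4 1 3 1) (i3 : Imp a 4 3 3 2) (h1 : ∀ N, ∃ n, N ≤ n ∧ a n)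
    (h2 : ∀ N, ∃ n, N ≤ n ∧ ¬ a n) : False := by
  have hb : Dz σ fun n => ¬ a n := fun _ _ e h h' => h (ha _ _ e.symm h')
  have s1 : Sys 2 3 2 3 a := by
    refine ⟨Nat.prime_two, Nat.prime_three, by norm_num, fun n => ?_, ⟨1, le_rfl, rfl⟩,
      ⟨1, le_rfl, rfl⟩, i1⟩
    rcases (by omega : n % 2 = 0 ∨ n % 4 = 1 ∨ n % 4 = 3) with h | h | h
    · exact ⟨1, 1, 0, le_rfl, one_le_two, le_rfl, by simpa [h] using i1⟩
    · exact ⟨2, 1, 1, one_le_two, le_rfl, le_rfl, by simpa [h] using i2⟩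
    · exact ⟨2, 1, 2, one_le_two, le_rfl, le_rfl, by simpa [h] using i3⟩
  have s2 : Sys 3 2 3 2 fun n => ¬ a n := by
    refine ⟨Nat.prime_three, Nat.prime_two, by norm_num, fun n => ?_, ⟨1, le_rfl, rfl⟩,
      ⟨1, le_rfl, rfl⟩, fun m h h' => h (i1 m h')⟩
    rcases (by omega : n % 3 = 0 ∨ n % 3 = 1 ∨ n % 3 = 2) with h | h | h
    · exact ⟨1, 1, 0, le_rfl, one_le_two, le_rfl, by rw [pow_one, h]; exact fun m h h' => h (i1 m h')⟩
    · exact ⟨1, 2, 1, le_rfl, one_le_two, one_le_two, by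
        rw [pow_one, h]; exact fun m h h' => h (i2 m h')⟩
    · exact ⟨1, 2, 3, le_rfl, one_le_two, one_le_two, by
        rw [pow_one, h]; exact fun m h h' => h (i3 m h')⟩
  have s3 : Sys 2 3 4 3 fun n => a (n + 1) := by
    refine ⟨Nat.prime_two, Nat.prime_three, by norm_num, fun n => ?_, ⟨2, one_le_two, rfl⟩,
      ⟨1, le_rfl, rfl⟩, i2⟩
    rcases (by omega : n % 2 = 1 ∨ n % 4 = 0 ∨ n % 4 = 2) with h | h | h
    · exact ⟨1, 1, 2, le_rfl, one_le_two, le_rfl, by rw [pow_one, h]; exact fun m => i1 (m + 1)⟩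
    · exact ⟨2, 1, 0, one_le_two, le_rfl, le_rfl, by rw [show 2 ^ 2 = 4 from rfl, h]; exact i2⟩
    · exact ⟨2, 1, 1, one_le_two, le_rfl, le_rfl, by rw [show 2 ^ 2 = 4 from rfl, h]; exact i3⟩
  have s4 : Sys 3 2 3 4 fun n => ¬ a (n + 1) := by
    refine ⟨Nat.prime_three, Nat.prime_two, by norm_num, fun n => ?_, ⟨1, le_rfl, rfl⟩,
      ⟨2, one_le_two, rfl⟩, fun m h h' => h (i2 m h')⟩
    rcases (by omega : n % 3 = 0 ∨ n % 3 = 1 ∨ n % 3 = 2) with h | h | h
    · exact ⟨1, 2, 0, le_rfl, one_le_two, one_le_two, by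
        rw [pow_one, h]; exact fun m h h' => h (i2 m h')⟩
    · exact ⟨1, 2, 2, le_rfl, one_le_two, one_le_two, by
        rw [pow_one, h]; exact fun m h h' => h (i3 m h')⟩
    · exact ⟨1, 1, 1, le_rfl, one_le_two, le_rfl, by
        rw [pow_one, h]; exact fun m h h' => h (i1 (m + 1) h')⟩
  have hs : ∀ b : ℕ → Prop, (∀ N, ∃ n, N ≤ n ∧ b n) → ∀ N, ∃ n, N ≤ n ∧ b (n + 1) := by
    intro b h N
    obtain ⟨n, h3, h4⟩ := h (N + 1)
    exact ⟨n - 1, by omega, by rwa [Nat.sub_add_cancel (by omega)]⟩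
  have key : (∃ M, 0 < M ∧ Lg a M) ∧ ∃ M, 0 < M ∧ Lg (fun n => ¬ a n) M := by
    by_cases h3 : 3 ∣ k
    · by_cases h4 : 2 ∣ k
      · exact ⟨s1.long hk hσ ha h1 (Or.inr (Or.inr ⟨h4, h3⟩)),
          s2.long hk hσ hb h2 (Or.inr (Or.inr ⟨h3, h4⟩))⟩
      · have h5 : (4 : ℕ).Coprime k :=
          ((Nat.Prime.coprime_iff_not_dvd Nat.prime_two).2 h4).pow_left 2
        obtain ⟨M, h6, h7⟩ := s3.long hk hσ.pair (fun _ _ e => ha _ _ (congrArg Prod.snd e))
          (hs a h1) (Or.inr (Or.inl ⟨by norm_num, h5⟩))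
        obtain ⟨M', h8, h9⟩ := s4.long hk hσ.pair (fun _ _ e => hb _ _ (congrArg Prod.snd e))
          (hs _ h2) (Or.inl ⟨by norm_num, h5⟩)
        exact ⟨⟨M, h6, h7.shift⟩, M', h8, Lg.shift (a := fun n => ¬ a n) h9⟩
    · have h5 := (Nat.Prime.coprime_iff_not_dvd Nat.prime_three).2 h3
      exact ⟨s1.long hk hσ ha h1 (Or.inl ⟨by norm_num, h5⟩),
        s2.long hk hσ hb h2 (Or.inr (Or.inl ⟨by norm_num, h5⟩))⟩
  obtain ⟨⟨M, h3, h4⟩, M', h5, h6⟩ := key
  obtain ⟨M, h7, h8, h9⟩ := s1.lg_cop h3 h4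
  obtain ⟨M', h10, h11, h12⟩ := s2.lg_cop h5 h6
  exact conn hk hσ ha i1 i2 i3 h7 h10 h8 h11 h9 h12

theorem finite_or (hk : 2 ≤ k) {A : Set ℕ} (hA : Language.IsRegular (Nat.digits k '' A))
    (i1 : Imp (· ∈ A) 2 0 3 0) (i2 : Imp (· ∈ A) 4 1 3 1) (i3 : Imp (· ∈ A) 4 3 3 2) :
    A.Finite ∨ Aᶜ.Finite := by
  obtain ⟨Q, _, M, hM⟩ := hA
  by_contra hn
  rw [not_or] at hn
  refine not_both (σ := fun n => (n = 0, fun s => M.evalFrom s (Nat.digits k n) ∈ M.accept)) hk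
    ?_ ?_ i1 i2 i3 (fun N => ?_) fun N => ?_
  · intro n n' d hd e
    obtain ⟨e1, e2⟩ := Prod.mk.inj e
    rcases Nat.eq_zero_or_pos n with rfl | h
    · rw [show n' = 0 from e1 ▸ rfl]
    · have h' : n' ≠ 0 := fun e => h.ne' (e1.mpr e)
      have h1 : k * n + d ≠ 0 := by positivity
      have h2 : k * n' + d ≠ 0 := by positivity
      refine Prod.ext (by simp only [h1, h2]) (funext fun s => ?_)
      simp only
      rw [add_comm, add_comm (k * n'), Nat.digits_add k hk d n hd (Or.inr h.ne'),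
        Nat.digits_add k hk d n' hd (Or.inr h'), DFA.evalFrom_cons, DFA.evalFrom_cons]
      exact congrFun e2 _
  · have h : ∀ n, n ∈ A ↔ M.evalFrom M.start (Nat.digits k n) ∈ M.accept := fun n => by
      rw [← (Nat.digits.injective k).mem_set_image, ← hM]
      rfl
    intro n n' e
    simp only [h]
    exact (congrFun (Prod.mk.inj e).2 M.start).mp
  · obtain ⟨n, h1, h2⟩ := Set.Infinite.exists_gt hn.1 N
    exact ⟨n, h2.le, h1⟩
  · obtain ⟨n, h1, h2⟩ := Set.Infinite.exists_gt hn.2 N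
    exact ⟨n, h2.le, h1⟩

theorem main (k : ℕ) (hk : 2 ≤ k) (f : ℕ → ℕ)
    (hf : ∀ n, f n = if n % 2 = 0 then 3 * n / 2 else (3 * n + 1) / 4) (A : Set ℕ)
    (hA : Language.IsRegular (Nat.digits k '' A)) (hc : ∀ n ∈ A, f n ∈ A) :
    (A.Finite ∨ Aᶜ.Finite) ∧
      ∀ a ∈ A, ∀ b ∉ A, a ∈ Function.periodicPts f ∨ b ∈ Function.periodicPts f := by
  have h := finite_or hk hA
    (fun m h => by convert hc _ h using 1; rw [hf]; split_ifs <;> omega)
    (fun m h => by convert hc _ h using 1; rw [hf]; split_ifs <;> omega)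
    (fun m h => by convert hc _ h using 1; rw [hf]; split_ifs <;> omega)
  refine ⟨h, fun a ha b hb => h.imp (fun h => ?_) fun h => ?_⟩
  · have h1 : Function.Injective f := fun x y e => by
      rw [hf, hf] at e
      split_ifs at e <;> omega
    obtain ⟨i, j, h2, h3⟩ := h.exists_lt_map_eq_of_forall_mem (f := fun i : ℕ => f^[i] a)
      fun i => by
        induction i with
        | zero => exact ha
        | succ i ih => simpa only [Function.iterate_succ_apply'] using hc _ ih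
    obtain ⟨d, rfl⟩ := Nat.exists_eq_add_of_lt h2
    simp only [add_assoc, Function.iterate_add_apply _ i] at h3
    exact Function.mk_mem_periodicPts (Nat.succ_pos d) (h1.iterate i h3).symm
  · have h1 : ∀ y, ∃ x, f x = y := fun y => by
      rcases (by omega : y % 3 = 0 ∨ y % 3 = 1 ∨ y % 3 = 2) with h | h | h
      · exact ⟨y / 3 * 2, by rw [hf]; split_ifs <;> omega⟩
      · exact ⟨y / 3 * 4 + 1, by rw [hf]; split_ifs <;> omega⟩
      · exact ⟨y / 3 * 4 + 3, by rw [hf]; split_ifs <;> omega⟩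
    choose g hg using h1
    obtain ⟨i, j, h2, h3⟩ := h.exists_lt_map_eq_of_forall_mem (f := fun i : ℕ => g^[i] b)
      fun i => by
        induction i with
        | zero => exact hb
        | succ i ih =>
          rw [Function.iterate_succ_apply']
          exact fun h => ih (by simpa only [hg] using hc _ h)
    obtain ⟨d, rfl⟩ := Nat.exists_eq_add_of_lt h2
    have h4 : ∀ i, f^[i] (g^[i] b) = b := fun i => Function.RightInverse.iterate hg i b
    refine Function.mk_mem_periodicPts (Nat.succ_pos d) ?_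
    have h5 := h4 (i + d + 1)
    rwa [← h3, add_assoc, add_comm, Function.iterate_add_apply, h4] at h5

end Pool.Agent.P.MP_05c0aa_nt
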