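import Mathlib

/-! Irrational rotations and powers modulo prime powers. -/

namespace Pool.Agent.P.MP_05c0aa_nt

open Filter Topology

/-- multiplicative independence -/
def Ind (x y : ℝ) : Prop := ∀ s r : ℕ, 0 < s → x ^ s ≠ y ^ r ∧ x ^ s * y ^ r ≠ 1

lemma rot {x y : ℝ} (hx : 0 < x) (hy : 1 < y) (hi : Ind x y) {α β : ℝ} (hα : 0 < α) (hβ : α < β)
    (N : ℕ) : ∃ n, N ≤ n ∧ ∃ b : ℤ, α < x ^ n * y ^ b ∧ x ^ n * y ^ b < β := by
  have hy0 : 0 < y := by linarith
  have hB : 0 < Real.log y := Real.log_pos hy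
  have : Fact (0 < Real.log y) := ⟨hB⟩
  have h1 : Irrational (Real.log x / Real.log y) := by
    rintro ⟨q, hq⟩
    have h2 : (q.den : ℝ) * Real.log x = (q.num : ℝ) * Real.log y := by
      rw [Rat.cast_def, div_eq_div_iff (by exact_mod_cast q.den_nz) hB.ne'] at hq
      linarith
    have h3 : x ^ q.den = y ^ q.num := by
      apply Real.log_injOn_pos (Set.mem_Ioi.2 (by positivity)) (Set.mem_Ioi.2 (by positivity))
      rw [Real.log_pow, Real.log_zpow, h2]
    obtain ⟨r, hr | hr⟩ := Int.eq_nat_or_neg q.num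
    · exact (hi q.den r q.den_pos).1 (by rw [h3, hr, zpow_natCast])
    · exact (hi q.den r q.den_pos).2 (by
        rw [h3, hr, zpow_neg, zpow_natCast, inv_mul_cancel₀ (by positivity)])
  have h2 := AddCircle.denseRange_zsmul_coe_iff.2 h1
  have hab : Real.log α < Real.log β := Real.log_lt_log hα hβ
  have h3 := ((mapClusterPt_atTop_nsmul_tfae
    (((Real.log α + Real.log β) / 2 : ℝ) : AddCircle (Real.log y))
    ((Real.log x : ℝ) : AddCircle (Real.log y))).out 3 0).1 (h2 _)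
  have h4 : ((↑) : ℝ → AddCircle (Real.log y)) '' Set.Ioo (Real.log α) (Real.log β) ∈
      𝓝 (((Real.log α + Real.log β) / 2 : ℝ) : AddCircle (Real.log y)) :=
    (QuotientAddGroup.isOpenMap_coe _ isOpen_Ioo).mem_nhds
      ⟨_, ⟨by linarith, by linarith⟩, rfl⟩
  obtain ⟨n, hn, w, hw, h5⟩ := frequently_atTop.1 (mapClusterPt_iff_frequently.1 h3 _ h4) N
  rw [← AddCircle.coe_nsmul, QuotientAddGroup.eq_iff_sub_mem] at h5
  obtain ⟨b, hb⟩ := AddSubgroup.mem_zmultiples_iff.1 h5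
  have h6 : Real.log (x ^ n * y ^ b) = w := by
    rw [Real.log_mul (by positivity) (by positivity), Real.log_pow, Real.log_zpow]
    simp only [zsmul_eq_mul, nsmul_eq_mul] at hb
    linarith
  have h7 : 0 < x ^ n * y ^ b := by positivity
  refine ⟨n, hn, b, ?_, ?_⟩
  · exact (Real.log_lt_log_iff hα h7).1 (h6 ▸ hw.1)
  · exact (Real.log_lt_log_iff h7 (by linarith)).1 (h6 ▸ hw.2)

/-- a fraction in lowest terms that is neither an integer nor the inverse of one -/
lemma ind_frac {u w k : ℕ} (hu : 2 ≤ u) (hw : 2 ≤ w) (h : u.Coprime w) :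
    Ind ((w : ℝ) / u) k := by
  intro s r hs
  have hu0 : (u : ℝ) ^ s ≠ 0 := by positivity
  constructor
  · intro e
    rw [div_pow, div_eq_iff hu0] at e
    have e' : w ^ s = k ^ r * u ^ s := by exact_mod_cast e
    have := (h.pow s s).eq_one_of_dvd (e' ▸ dvd_mul_left _ _)
    exact absurd this (Nat.one_lt_pow hs.ne' hu).ne'
  · intro e
    rw [div_pow, div_mul_eq_mul_div, div_eq_one_iff_eq hu0] at e
    have e' : w ^ s * k ^ r = u ^ s := by exact_mod_cast e
    have := (h.symm.pow s s).eq_one_of_dvd (e' ▸ dvd_mul_right _ _)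
    exact absurd this (Nat.one_lt_pow hs.ne' hw).ne'

lemma pow_dense {p K : ℕ} (hp : p.Prime) (hK : 2 ≤ K) (h : K.Coprime p) :
    ∃ E : ℕ, ∀ (z : ℤ) (N T : ℕ), ∃ t, T ≤ t ∧ (p : ℤ) ^ N ∣ (K : ℤ) ^ t - (1 + p ^ E * z) := by
  have hs : 0 < (p ^ 2).totient := Nat.totient_pos.2 (pow_pos hp.pos 2)
  have h1 : 1 < K ^ (p ^ 2).totient := Nat.one_lt_pow hs.ne' hK
  have h2 : p ^ 2 ∣ K ^ (p ^ 2).totient - 1 :=
    (Nat.modEq_iff_dvd' h1.le).1 (Nat.ModEq.pow_totient (h.pow_right 2)).symm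
  obtain ⟨c0, hc0⟩ := h2
  obtain ⟨e, c, hc, h3⟩ := Nat.exists_eq_pow_mul_and_not_dvd
    (show c0 ≠ 0 by rintro rfl; omega) p hp.ne_one
  have h4 : (K : ℤ) ^ (p ^ 2).totient = 1 + p ^ (e + 2) * c := by
    have : K ^ (p ^ 2).totient = 1 + p ^ (e + 2) * c := by
      rw [pow_add, mul_comm (p ^ e), mul_assoc, ← h3, ← hc0]
      omega
    exact_mod_cast this
  set K1 : ℤ := (K : ℤ) ^ (p ^ 2).totient
  have key : ∀ (z : ℤ) (T N : ℕ), ∃ t, T ≤ t ∧
      (p : ℤ) ^ (N + (e + 2)) ∣ K1 ^ t - (1 + p ^ (e + 2) * z) := by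
    intro z T N
    induction N with
    | zero =>
      refine ⟨T, le_rfl, ?_⟩
      have := sub_dvd_pow_sub_pow K1 1 T
      rw [one_pow, h4, add_sub_cancel_left] at this
      rw [zero_add, ← sub_sub, h4]
      exact ((dvd_mul_right _ _).trans this).sub (dvd_mul_right _ _)
    | succ N ih =>
      obtain ⟨t, ht, d, hd⟩ := ih
      obtain ⟨y, hy⟩ := ZMod.exists_one_add_mul_pow_prime_pow_eq (R := ℤ) (u := p ^ (e + 2))
        (v := p) hp (dvd_pow_self _ (by omega)) (by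
          rw [← pow_succ', ← pow_succ, ← pow_mul]
          exact pow_dvd_pow _ (by nlinarith [hp.two_le])) c N
      obtain ⟨s, hs⟩ : ∃ s : ℕ, (p : ℤ) ∣ d + s * c := by
        have : Fact p.Prime := ⟨hp⟩
        have h5 : (c : ZMod p) ≠ 0 := fun h => hc ((ZMod.natCast_eq_zero_iff c p).1 h)
        refine ⟨(-(d : ZMod p) / c).val, (ZMod.intCast_zmod_eq_zero_iff_dvd _ _).1 ?_⟩
        push_cast
        rw [ZMod.natCast_zmod_val]
        field_simp
        ring
      obtain ⟨s', hs'⟩ := hs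
      obtain ⟨w, hw⟩ := sq_dvd_add_pow_sub_sub ((p : ℤ) ^ N * p ^ (e + 2) * (c + p * y)) 1 s
      refine ⟨t + p ^ N * s, by omega, ?_⟩
      have h5 : K1 ^ (p ^ N * s) = 1 + p ^ N * p ^ (e + 2) * (c + p * y) * s +
          (p ^ N * p ^ (e + 2) * (c + p * y)) ^ 2 * w := by
        rw [pow_mul, h4, hy]
        simp only [one_pow, one_mul] at hw
        linear_combination hw
      have h6 : K1 ^ t = 1 + p ^ (e + 2) * z + p ^ (N + (e + 2)) * d := by linear_combination hd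
      have h7 : d = p * s' - s * c := by linear_combination hs'
      refine ⟨s' + y * s + (c + p * y) * s * (p ^ (e + 1) * z + p ^ (N + e + 1) * d) +
        p ^ (N + e + 1) * (c + p * y) ^ 2 * w * K1 ^ t, ?_⟩
      rw [pow_add, h5, h6, h7]
      ring
  refine ⟨e + 2, fun z N T => ?_⟩
  obtain ⟨t, ht, h5⟩ := key z T N
  refine ⟨(p ^ 2).totient * t, by nlinarith, ?_⟩
  rw [pow_mul]
  exact (pow_dvd_pow _ (by omega)).trans h5

lemma in_block {K Y n : ℕ} {x C : ℝ} (h1 : (Y + 1 / 3) * K < x) (h2 : x < (Y + 2 / 3) * K)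
    (h3 : |n - x| ≤ C) (h4 : 3 * C ≤ K) : K * Y ≤ n ∧ n < K * (Y + 1) := by
  obtain ⟨h5, h6⟩ := abs_le.1 h3
  constructor
  · have : (K : ℝ) * Y ≤ n := by linarith
    exact_mod_cast this
  · have : (n : ℝ) < K * (Y + 1) := by linarith
    exact_mod_cast this

end Pool.Agent.P.MP_05c0aa_nt
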