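import Pool.Agent.P.MP_05c0aa_nt.Aut
import Pool.Agent.P.MP_05c0aa_nt.Rot

/-! Sets closed under a piecewise affine map: transport of classes, and positive density. -/

namespace Pool.Agent.P.MP_05c0aa_nt

variable {S : Type} {k : ℕ} {σ : ℕ → S} {a : ℕ → Prop} {p q u w : ℕ} {D : ℝ}

/-- the class `c` mod `U` is carried to the class `c'` mod `W` -/
def Imp (a : ℕ → Prop) (U c W c' : ℕ) : Prop := ∀ m, a (U * m + c) → a (W * m + c')

/-- `a` is closed under a map whose branches have slopes `q ^ i / p ^ j`, one of them linear -/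
structure Sys (p q u w : ℕ) (a : ℕ → Prop) : Prop where
  pp : p.Prime
  qq : q.Prime
  ne : p ≠ q
  step : ∀ n, ∃ j i c', 1 ≤ j ∧ j ≤ 2 ∧ 1 ≤ i ∧ Imp a (p ^ j) (n % p ^ j) (q ^ i) c'
  hu : ∃ j, 1 ≤ j ∧ u = p ^ j
  hw : ∃ i, 1 ≤ i ∧ w = q ^ i
  sp : Imp a u 0 w 0

lemma Imp.comp {U c W c' U' e W' e' μ ν : ℕ} (h : Imp a U c W c') (h' : Imp a U' e W' e')
    (hμ : W * μ + c' = U' * ν + e) : Imp a (U * U') (U * μ + c) (W * W') (W' * ν + e') := by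
  intro m h1
  have h2 := h (U' * m + μ) (by rwa [show U * (U' * m + μ) + c = U * U' * m + (U * μ + c) by ring])
  have h3 := h' (W * m + ν) (by
    rwa [show U' * (W * m + ν) + e = W * (U' * m + μ) + c' by nlinarith])
  rwa [show W * W' * m + (W' * ν + e') = W' * (W * m + ν) + e' by ring]

lemma Sys.pow (h : Sys p q u w a) (i : ℕ) : Imp a (u ^ i) 0 (w ^ i) 0 := by
  induction i with
  | zero => exact fun m h => by simpa using h
  | succ i ih => simpa [pow_succ] using ih.comp h.sp (μ := 0) (ν := 0) (by simp)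

lemma Sys.cop (h : Sys p q u w a) : p.Coprime q := (Nat.coprime_primes h.pp h.qq).2 h.ne

lemma Sys.facts (h : Sys p q u w a) : 2 ≤ u ∧ 2 ≤ w ∧ u.Coprime w := by
  obtain ⟨j, h1, rfl⟩ := h.hu
  obtain ⟨i, h2, rfl⟩ := h.hw
  exact ⟨Nat.one_lt_pow (by omega) h.pp.one_lt, Nat.one_lt_pow (by omega) h.qq.one_lt,
    h.cop.pow _ _⟩

lemma Sys.absorb (h : Sys p q u w a) (e ρ : ℕ) :
    ∃ J I c', e ≤ J ∧ Imp a (p ^ J) (ρ % p ^ J) (q ^ I) c' := by
  induction e with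
  | zero => exact ⟨0, 0, 0, le_rfl, fun m h => by simpa [Nat.mod_one] using h⟩
  | succ e ih =>
    obtain ⟨J, I, c', h1, h2⟩ := ih
    obtain ⟨j, i, c'', h3, -, -, h4⟩ := h.step (q ^ I * (ρ / p ^ J) + c')
    have h5 : (q ^ I * (ρ / p ^ J % p ^ j) + c') % p ^ j = (q ^ I * (ρ / p ^ J) + c') % p ^ j :=
      ((Nat.mod_modEq _ _).mul_left _).add_right _
    have h6 := h2.comp h4 (μ := ρ / p ^ J % p ^ j)
      (ν := (q ^ I * (ρ / p ^ J % p ^ j) + c') / p ^ j) (by rw [← h5, Nat.div_add_mod])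
    refine ⟨J + j, I + i, q ^ i * ((q ^ I * (ρ / p ^ J % p ^ j) + c') / p ^ j) + c'', by omega, ?_⟩
    rw [pow_add, pow_add, Nat.mod_mul, add_comm]
    exact h6

/-- the maximal density is attained for a modulus prime to `p` -/
lemma Sys.core (h : Sys p q u w a) (hU : ∀ M ρ, 0 < M → Up (ap a M ρ) D) {M ρ : ℕ} (hM : 0 < M)
    (hD : D ≤ bd (ap a M ρ)) :
    ∃ M ρ, 0 < M ∧ M.Coprime p ∧ ρ < M ∧ D ≤ bd (ap a M ρ) := by
  obtain ⟨e, M', h1, rfl⟩ := Nat.exists_eq_pow_mul_and_not_dvd hM.ne' p h.pp.ne_one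
  obtain ⟨J, I, c', h2, h3⟩ := h.absorb e ρ
  obtain ⟨s, rfl⟩ := Nat.exists_eq_add_of_le h2
  have hp := h.pp.pos
  have hq := h.qq.pos
  have h4 : 0 < M' := Nat.pos_of_mul_pos_left hM
  have h5 := le_bd_ap hD (Q := p ^ s) (fun t _ => by rw [ap_ap]; exact hU _ _ (by positivity))
    (t := 0) (by positivity)
  refine ⟨q ^ I * M', _, by positivity, (h.cop.symm.pow_left I).mul_left
    ((Nat.Prime.coprime_iff_not_dvd h.pp).2 h1).symm, Nat.mod_lt _ (by positivity),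
    h5.trans ((bd_mono 0 fun m hm => ?_).trans
      (bd_ap_mod a _ (q ^ I * (ρ / p ^ (e + s)) + c')))⟩
  simp only [ap] at hm ⊢
  have h6 := h3 (M' * m + ρ / p ^ (e + s)) (by
    rwa [mul_add, add_assoc, Nat.div_add_mod, show p ^ (e + s) * (M' * m) =
      p ^ e * M' * (p ^ s * m + 0) by ring])
  rwa [show q ^ I * M' * (m + 0) + (q ^ I * (ρ / p ^ (e + s)) + c') =
    q ^ I * (M' * m + ρ / p ^ (e + s)) + c' by ring]

lemma ap_sub (a : ℕ → Prop) {M ρ Q c : ℕ} (hc : c < M * Q) (h : c % M = ρ) :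
    c / M < Q ∧ ap a (M * Q) c = ap (ap a M ρ) Q (c / M) :=
  ⟨Nat.div_lt_of_lt_mul hc, by rw [ap_ap, ← h, Nat.div_add_mod]⟩

lemma hit (hk : 2 ≤ k) {Y n : ℕ} {x C : ℝ} {b : ℤ} (h1 : Y + 1 / 3 < x * k ^ b)
    (h2 : x * k ^ b < Y + 2 / 3) (h3 : |n - x| ≤ C) (h4 : (3 * C + 1) * (Y + 1) ≤ x) :
    ∃ τ, k ^ τ * Y ≤ n ∧ n < k ^ τ * (Y + 1) := by
  have hk1 : (1 : ℝ) < k := by exact_mod_cast hk
  have h5 : 0 < (k : ℝ) ^ (-b) := by positivity
  have h6 : (k : ℝ) ^ b * k ^ (-b) = 1 := by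
    rw [zpow_neg, mul_inv_cancel₀ (by positivity)]
  have h7 : 0 ≤ C := (abs_nonneg _).trans h3
  have h8 : x = x * k ^ b * k ^ (-b) := by rw [mul_assoc, h6, mul_one]
  have h9 : x < (Y + 2 / 3) * k ^ (-b) := by
    rw [h8]
    gcongr
  have h10 : 3 * C + 1 ≤ (k : ℝ) ^ (-b) := by
    by_contra hn
    have : (0 : ℝ) ≤ Y := by positivity
    nlinarith
  obtain ⟨τ, hτ⟩ := Int.eq_ofNat_of_zero_le ((one_le_zpow_iff_right₀ hk1).1
    (show (1 : ℝ) ≤ (k : ℝ) ^ (-b) by linarith))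
  rw [hτ, zpow_natCast] at h5 h6 h8 h9 h10
  refine ⟨τ, in_block (x := x) (C := C) ?_ (by exact_mod_cast h9) h3 (by push_cast; linarith)⟩
  push_cast
  rw [h8]
  gcongr

/-- every word is the beginning of the expansion of an element -/
def Pre (k : ℕ) (a : ℕ → Prop) : Prop :=
  ∀ Y, 1 ≤ Y → ∃ τ n, a n ∧ k ^ τ * Y ≤ n ∧ n < k ^ τ * (Y + 1)

lemma pre_affine (hk : 2 ≤ k) {c e y : ℕ} (hc : 2 ≤ c) (hi : Ind c k) (hy : 1 ≤ y) (h0 : a y)
    (h : ∀ y, a y → a (c * y + e)) : Pre k a := by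
  intro Y _
  have hc1 : (1 : ℝ) < c := by exact_mod_cast hc
  have hc2 : (0 : ℝ) < c - 1 := by linarith
  have hz : (1 : ℝ) ≤ y + e / (c - 1) := by
    have : (1 : ℝ) ≤ y := by exact_mod_cast hy
    have : (0 : ℝ) ≤ e / (c - 1) := by positivity
    linarith
  have h1 : ∀ n : ℕ, ∃ m : ℕ, a m ∧ (m : ℝ) = c ^ n * (y + e / (c - 1)) - e / (c - 1) := by
    intro n
    induction n with
    | zero => exact ⟨y, h0, by simp⟩
    | succ n ih =>
      obtain ⟨m, h1, h2⟩ := ih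
      refine ⟨_, h m h1, ?_⟩
      push_cast
      rw [h2]
      field_simp
      ring
  set z : ℝ := y + e / (c - 1)
  obtain ⟨N, hN⟩ := exists_nat_ge ((3 * (e / (c - 1)) + 1) * (Y + 1) : ℝ)
  obtain ⟨n, hn, b, h2, h3⟩ := rot (by linarith) (by exact_mod_cast hk) hi
    (α := (Y + 1 / 3) / z) (β := (Y + 2 / 3) / z) (by positivity) (by gcongr; norm_num) N
  obtain ⟨m, h4, h5⟩ := h1 n
  rw [div_lt_iff₀ (by linarith)] at h2
  rw [lt_div_iff₀ (by linarith)] at h3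
  have h6 : (N : ℝ) ≤ c ^ n := by
    exact_mod_cast hn.trans (Nat.lt_pow_self hc).le
  obtain ⟨τ, h7⟩ := hit hk (Y := Y) (n := m) (x := c ^ n * z) (C := e / (c - 1)) (b := b)
    (by linarith) (by linarith) (by rw [h5]; simp [abs_of_nonneg (show (0 : ℝ) ≤ e / (c - 1) by
      positivity)]) (by nlinarith [show (0 : ℝ) ≤ c ^ n by positivity])
  exact ⟨τ, m, h4, h7⟩

lemma Pre.of_ap {r ρ : ℕ} (hρ : ρ < k ^ r) (h : Pre k (ap a (k ^ r) ρ)) : Pre k a := by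
  intro Y hY
  obtain ⟨τ, n, h1, h2, h3⟩ := h Y hY
  refine ⟨r + τ, _, h1, ?_, ?_⟩
  · rw [pow_add, mul_assoc]
    exact (Nat.mul_le_mul_left _ h2).trans (Nat.le_add_right _ _)
  · rw [pow_add, mul_assoc]
    have := Nat.mul_le_mul_left (k ^ r) (show n + 1 ≤ _ from h3)
    rw [mul_add_one] at this
    omega

lemma Sys.pre_dvd [Finite S] (h : Sys p q u w a) (hk : 2 ≤ k) (hσ : Aut k σ) (ha : Dz σ a)
    (hinf : ∀ N, ∃ n, N ≤ n ∧ a n) (hpk : p ∣ k) : Pre k a := by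
  obtain ⟨k', hk'⟩ := hpk
  have hk0 : 0 < k' := Nat.pos_of_ne_zero fun e => by rw [e] at hk'; omega
  have hq := h.qq.two_le
  let R : (ℕ → Prop) → (ℕ → Prop) → Prop := fun b b' =>
    ∃ I J e, 1 ≤ I ∧ ∀ y, b y → b' (q ^ I * k' ^ J * y + e)
  have h1 : ∀ x : ℕ × ℕ, ∃ x' : ℕ × ℕ, 2 ≤ x.1 → x'.2 < k ^ x'.1 ∧ x.1 ≤ x'.1 + 2 ∧
      R (ap a (k ^ x.1) x.2) (ap a (k ^ x'.1) x'.2) := by
    rintro ⟨r, ρ⟩
    obtain ⟨j, i, c', h1, h2, h3, h4⟩ := h.step ρ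
    refine ⟨(r - j, (q ^ i * (ρ / p ^ j) + c') % k ^ (r - j)), fun hr =>
      ⟨Nat.mod_lt _ (by positivity), by simp only; omega, i, j,
        (q ^ i * (ρ / p ^ j) + c') / k ^ (r - j), h3, fun y hy => ?_⟩⟩
    obtain ⟨s, rfl⟩ := Nat.exists_eq_add_of_le (show j ≤ r from h2.trans hr)
    simp only [ap, Nat.add_sub_cancel_left] at hy ⊢
    have h5 := h4 (k' ^ j * k ^ s * y + ρ / p ^ j) (by
      rwa [mul_add, add_assoc, Nat.div_add_mod, show p ^ j * (k' ^ j * k ^ s * y) =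
        k ^ (j + s) * y by rw [pow_add, ← mul_assoc, ← mul_assoc, ← mul_pow, ← hk']])
    rwa [mul_add, add_assoc, Nat.div_add_mod, show k ^ s * (q ^ i * k' ^ j * y) +
      (q ^ i * (ρ / p ^ j) + c') = q ^ i * (k' ^ j * k ^ s * y + ρ / p ^ j) + c' by ring]
  choose g hg using h1
  obtain ⟨C, hC⟩ := pigeon (S → Prop)
  obtain ⟨n, hn, han⟩ := hinf (k ^ (2 * C))
  let F : ℕ → ℕ × ℕ := fun s => g^[s] (2 * C, n % k ^ (2 * C))
  have hF : ∀ s, F (s + 1) = g (F s) := fun s => Function.iterate_succ_apply' _ _ _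
  have h2 : ∀ s ≤ C, (F s).2 < k ^ (F s).1 ∧ 2 * C ≤ (F s).1 + 2 * s ∧
      ∃ y, 1 ≤ y ∧ ap a (k ^ (F s).1) (F s).2 y := by
    intro s hs
    induction s with
    | zero =>
      refine ⟨Nat.mod_lt _ (by positivity), le_rfl, n / k ^ (2 * C),
        Nat.div_pos hn (by positivity), ?_⟩
      simpa [F, ap, Nat.div_add_mod] using han
    | succ s ih =>
      obtain ⟨-, a2, y, a3, a4⟩ := ih (by omega)
      obtain ⟨b1, b2, I, J, e, -, b3⟩ := hg (F s) (by omega)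
      rw [hF]
      refine ⟨b1, by omega, _, ?_, b3 y a4⟩
      have : 0 < q ^ I * k' ^ J * y := by positivity
      omega
  have h3 : ∀ s d, s + d + 1 ≤ C →
      R (ap a (k ^ (F s).1) (F s).2) (ap a (k ^ (F (s + d + 1)).1) (F (s + d + 1)).2) := by
    intro s d hd
    induction d with
    | zero =>
      rw [hF]
      exact (hg (F s) (by have := (h2 s (by omega)).2.1; omega)).2.2
    | succ d ih =>
      obtain ⟨I, J, e, a1, a2⟩ := ih (by omega)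
      obtain ⟨I', J', e', -, a3⟩ :=
        (hg (F (s + d + 1)) (by have := (h2 (s + d + 1) (by omega)).2.1; omega)).2.2
      refine ⟨I + I', J + J', q ^ I' * k' ^ J' * e + e', by omega, fun y hy => ?_⟩
      have := a3 _ (a2 y hy)
      rw [← hF] at this
      rwa [show q ^ (I + I') * k' ^ (J + J') * y + (q ^ I' * k' ^ J' * e + e') =
        q ^ I' * k' ^ J' * (q ^ I * k' ^ J * y + e) + e' by ring]
  obtain ⟨s, t, a1, a2, a3⟩ := hC fun s => kerT σ (ap a (k ^ (F s).1) (F s).2)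
  obtain ⟨d, rfl⟩ := Nat.exists_eq_add_of_lt a1
  obtain ⟨b1, -, y, b2, b3⟩ := h2 s (by omega)
  obtain ⟨I, J, e, a4, a5⟩ := h3 s d a2
  rw [← (ha.det hσ _ _ b1).ext (ha.det hσ _ _ (h2 _ a2).1) a3] at a5
  have hc : 2 ≤ q ^ I * k' ^ J :=
    (Nat.one_lt_pow (by omega) hq).trans_le (Nat.le_mul_of_pos_right _ (by positivity))
  refine Pre.of_ap b1 (pre_affine hk hc (fun s r hs => ⟨fun e => ?_, fun e => ?_⟩) b2 b3 a5)
  · have e' : (q ^ I * k' ^ J) ^ s = k ^ r := by exact_mod_cast e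
    rw [hk', mul_pow, mul_pow, ← pow_mul, ← pow_mul] at e'
    have hI : I * s ≠ 0 := by positivity
    rcases le_total r (J * s) with h4 | h4
    · obtain ⟨d, h5⟩ := Nat.exists_eq_add_of_le h4
      rw [h5, pow_add, mul_comm (k' ^ r), ← mul_assoc] at e'
      have h6 := Nat.eq_of_mul_eq_mul_right (by positivity) e'
      have h7 : q ∣ p ^ r := h6 ▸ (dvd_pow_self q hI).mul_right _
      exact h.qq.ne_one ((h.cop.symm.pow_right r).eq_one_of_dvd h7)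
    · obtain ⟨d, h5⟩ := Nat.exists_eq_add_of_le h4
      rcases Nat.eq_zero_or_pos r with rfl | hr
      · have : 1 < q ^ (I * s) * k' ^ (J * s) :=
          (Nat.one_lt_pow hI hq).trans_le (Nat.le_mul_of_pos_right _ (by positivity))
        simp only [pow_zero] at e'
        omega
      · nth_rw 2 [h5] at e'
        rw [pow_add, mul_comm (k' ^ (J * s)), ← mul_assoc] at e'
        have h6 := Nat.eq_of_mul_eq_mul_right (by positivity) e'
        have h7 : p ∣ q ^ (I * s) := h6 ▸ (dvd_pow_self p hr.ne').mul_right _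
        exact h.pp.ne_one ((h.cop.pow_right _).eq_one_of_dvd h7)
  · have e' : (q ^ I * k' ^ J) ^ s * k ^ r = 1 := by exact_mod_cast e
    have := Nat.one_lt_pow hs.ne' hc
    have := Nat.eq_one_of_mul_eq_one_right e'
    omega

lemma pump [Finite S] (hk : 2 ≤ k) (hσ : Aut k σ) (ha : Dz σ a) (hinf : ∀ N, ∃ n, N ≤ n ∧ a n) :
    ∃ (l β : ℕ) (γ : ℤ) (x : ℕ → ℕ), 1 ≤ l ∧ 0 < β ∧ ∀ t, a (x t) ∧
      (((k : ℤ) ^ l - 1) * x t = β * (k ^ l) ^ t + γ) := by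
  obtain ⟨C, hC⟩ := pigeon S
  obtain ⟨n, hn, han⟩ := hinf (k ^ C)
  obtain ⟨i, j, h1, h2, h3⟩ := hC fun j => σ (n / k ^ j)
  obtain ⟨d, rfl⟩ := Nat.exists_eq_add_of_lt h1
  set y := n / k ^ (i + d + 1) with hy
  have hy1 : 1 ≤ y := Nat.div_pos ((Nat.pow_le_pow_right (by omega) h2).trans hn) (by positivity)
  set v := n / k ^ i % k ^ (d + 1) with hv
  have hv1 : v < k ^ (d + 1) := Nat.mod_lt _ (by positivity)
  have h4 : k ^ (d + 1) * y + v = n / k ^ i := by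
    rw [hy, hv, add_assoc, pow_add k i, ← Nat.div_div_eq_div_mul, Nat.div_add_mod]
  let Y : ℕ → ℕ := fun t => (fun Y => k ^ (d + 1) * Y + v)^[t] y
  have hY : ∀ t, Y (t + 1) = k ^ (d + 1) * Y t + v := fun t => Function.iterate_succ_apply' _ _ _
  have h5 : 1 < k ^ (d + 1) := Nat.one_lt_pow (by omega) hk
  have h6 : ∀ t, σ (Y t) = σ y ∧ ((k : ℤ) ^ (d + 1) - 1) * Y t + v =
      (((k : ℤ) ^ (d + 1) - 1) * y + v) * (k ^ (d + 1)) ^ t := by
    intro t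
    induction t with
    | zero => exact ⟨rfl, by simp [Y]⟩
    | succ t ih =>
      rw [hY]
      refine ⟨(hσ.pow _ hv1 ih.1).trans (h4 ▸ h3), ?_⟩
      push_cast
      linear_combination (k : ℤ) ^ (d + 1) * ih.2
  refine ⟨d + 1, k ^ i * ((k ^ (d + 1) - 1) * y + v),
    ((k : ℤ) ^ (d + 1) - 1) * (n % k ^ i : ℕ) - k ^ i * v, fun t => k ^ i * Y t + n % k ^ i,
    by omega, ?_, fun t => ⟨?_, ?_⟩⟩
  · have : 0 < (k ^ (d + 1) - 1) * y := Nat.mul_pos (by omega) hy1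
    positivity
  · refine ha.det hσ i _ (Nat.mod_lt _ (by positivity)) (n / k ^ i) _ (h3.trans (h6 t).1.symm) ?_
    simpa [ap, Nat.div_add_mod] using han
  · generalize n % k ^ i = z
    push_cast [Nat.cast_sub h5.le]
    linear_combination (k : ℤ) ^ i * (h6 t).2

lemma Sys.pre_cop [Finite S] (h : Sys p q u w a) (hk : 2 ≤ k) (hσ : Aut k σ) (ha : Dz σ a)
    (hinf : ∀ N, ∃ n, N ≤ n ∧ a n) (hpk : k.Coprime p) : Pre k a := by
  intro Y _
  obtain ⟨l, β, γ, x, hl, hβ, hx⟩ := pump hk hσ ha hinf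
  have hK : 2 ≤ k ^ l := Nat.one_lt_pow (by omega) hk
  obtain ⟨E, hE⟩ := pow_dense h.pp hK (hpk.pow_left l)
  obtain ⟨b, β', hβ', hb⟩ := Nat.exists_eq_pow_mul_and_not_dvd hβ.ne' p h.pp.ne_one
  obtain ⟨v, κ, hκ, hv⟩ := Nat.exists_eq_pow_mul_and_not_dvd
    (show k ^ l - 1 ≠ 0 by omega) p h.pp.ne_one
  have hv' : (k : ℤ) ^ l - 1 = p ^ v * κ := by exact_mod_cast (by
    rw [← Nat.cast_pow, ← Nat.cast_pred (by omega), hv] : (k : ℤ) ^ l - 1 = (p ^ v * κ : ℕ))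
  obtain ⟨J, I, c', hJ, hI⟩ := h.absorb (b + E) (x 0)
  obtain ⟨s, rfl⟩ := Nat.exists_eq_add_of_le hJ
  obtain ⟨hu2, hw2, huw⟩ := h.facts
  have hp := h.pp.pos
  have hq := h.qq.pos
  have hK1 : (0 : ℝ) < (k : ℝ) ^ l - 1 := by
    have : (2 : ℝ) ≤ (k : ℝ) ^ l := by exact_mod_cast hK
    linarith
  set J := b + E + s with hJ
  set lam : ℝ := q ^ I / p ^ J * (β / ((k : ℝ) ^ l - 1)) with hlam
  have hlam0 : 0 < lam := by positivity
  obtain ⟨j, -, b0, h2, h3⟩ := rot (by positivity) (by exact_mod_cast hk)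
    (ind_frac (k := k) hu2 hw2 huw) (α := (Y + 1 / 3) / lam) (β := (Y + 2 / 3) / lam)
    (by positivity) (by gcongr; norm_num) 0
  rw [div_lt_iff₀ hlam0] at h2
  rw [lt_div_iff₀ hlam0] at h3
  obtain ⟨ju, -, hu⟩ := h.hu
  have hcop : IsCoprime ((q : ℤ) ^ I) ((u : ℤ) ^ j) := by
    rw [hu]
    exact_mod_cast Nat.isCoprime_iff_coprime.2 ((h.cop.symm.pow_left I).pow_right _ |>.pow_right j)
  obtain ⟨μ0, μ1, hμ⟩ := hcop
  obtain ⟨ω, ω1, hω⟩ : IsCoprime (β' : ℤ) ((p : ℤ) ^ (J + ju * j + v)) := by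
    exact_mod_cast Nat.isCoprime_iff_coprime.2
      (((Nat.Prime.coprime_iff_not_dvd h.pp).2 hβ').symm.pow_right _)
  set c := x 0 % p ^ J with hc
  set C0 : ℝ := ((w : ℝ) / u) ^ j * (q ^ I * (γ / ((k : ℝ) ^ l - 1) - c) / p ^ J + c') with hC0
  have hwu : 0 < ((w : ℝ) / u) ^ j * lam := by positivity
  obtain ⟨T, hT⟩ := exists_nat_ge ((3 * |C0| + 1) * (Y + 1) / (((w : ℝ) / u) ^ j * lam))
  have hx0 : (x 0 : ℤ) = p ^ J * (x 0 / p ^ J : ℕ) + c := by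
    exact_mod_cast (Nat.div_add_mod (x 0) (p ^ J)).symm
  obtain ⟨t, ht, d, hd⟩ := hE (ω * ((k : ℤ) ^ l - 1) * (p ^ s * (-μ0 * c' - (x 0 / p ^ J : ℕ))))
    (J + ju * j + v) T
  have h4 : (p : ℤ) ^ (J + ju * j) ∣ x t - (p ^ J * (-μ0 * c') + c) := by
    have h5 : IsCoprime ((p : ℤ) ^ (J + ju * j)) κ := by
      exact_mod_cast Nat.isCoprime_iff_coprime.2
        (((Nat.Prime.coprime_iff_not_dvd h.pp).2 hκ).pow_left _)
    refine h5.dvd_of_dvd_mul_left ((mul_dvd_mul_iff_left (a := (p : ℤ) ^ v) (by positivity)).1 ?_)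
    rw [← mul_assoc, ← hv', ← pow_add, add_comm v]
    have e0 := (hx 0).2
    have et := (hx t).2
    have eb : (β : ℤ) = p ^ b * β' := by exact_mod_cast hb
    have eJ : (p : ℤ) ^ J = p ^ b * p ^ E * p ^ s := by rw [hJ]; ring
    generalize x 0 / p ^ J = m0 at hd hx0
    refine ⟨β * d - ω1 * ((k : ℤ) ^ l - 1) * p ^ J * (-μ0 * c' - m0), ?_⟩
    push_cast at hd
    linear_combination et - e0 + ((k : ℤ) ^ l - 1) * hx0 + β * hd +
      (p ^ E * ω * ((k : ℤ) ^ l - 1) * p ^ s * (-μ0 * c' - m0)) * eb -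
      β' * ω * ((k : ℤ) ^ l - 1) * (-μ0 * c' - m0) * eJ +
      ((k : ℤ) ^ l - 1) * (-μ0 * c' - m0) * p ^ J * hω
  obtain ⟨d', hd'⟩ := h4
  have h5 : x t % p ^ J = c := by
    have : (x t : ℤ) ≡ c [ZMOD ((p ^ J : ℕ) : ℤ)] :=
      (Int.modEq_iff_dvd.2 ⟨-(p ^ (ju * j) * d' - μ0 * c'), by
        push_cast
        linear_combination -hd'⟩)
    have h6 : x t ≡ c [MOD p ^ J] := Int.natCast_modEq_iff.1 this
    rw [h6, hc, Nat.mod_mod]
  have h6 : x t = p ^ J * (x t / p ^ J) + c := by rw [← h5, Nat.div_add_mod]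
  generalize x t / p ^ J = m at h6
  have h7 : (m : ℤ) = u ^ j * d' - μ0 * c' := by
    apply mul_left_cancel₀ (show (p : ℤ) ^ J ≠ 0 by positivity)
    have : (x t : ℤ) = p ^ J * m + c := by exact_mod_cast h6
    rw [hu]
    push_cast
    linear_combination hd' - this
  obtain ⟨m', hm'⟩ : u ^ j ∣ q ^ I * m + c' := by
    rw [← Int.natCast_dvd_natCast]
    refine ⟨q ^ I * d' + μ1 * c', ?_⟩
    push_cast
    linear_combination q ^ I * h7 - c' * hμ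
  have h8 := h.pow j m' (by rw [add_zero, ← hm']; exact hI m (h6 ▸ (hx t).1))
  have h9 : ((w ^ j * m' + 0 : ℕ) : ℝ) = ((w : ℝ) / u) ^ j * lam * (k ^ l) ^ t + C0 := by
    have e1 : (q : ℝ) ^ I * m + c' = u ^ j * m' := by exact_mod_cast hm'
    have e2 : (x t : ℝ) = p ^ J * m + c := by exact_mod_cast h6
    have e3 : ((k : ℝ) ^ l - 1) * x t = β * (k ^ l) ^ t + γ := by exact_mod_cast (hx t).2
    have e4 : (m' : ℝ) = (q ^ I * m + c') / u ^ j := by rw [e1]; field_simp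
    have e5 : (m : ℝ) = ((β * (k ^ l) ^ t + γ) / (k ^ l - 1) - c) / p ^ J := by
      rw [← e3, e2]
      field_simp
      ring
    push_cast
    rw [e4, e5, hlam, hC0, div_pow]
    field_simp
    ring
  have h10 : ((k : ℝ) ^ l) ^ t * k ^ (b0 - (l * t : ℕ)) = k ^ b0 := by
    rw [zpow_sub₀ (by positivity), zpow_natCast, pow_mul]
    field_simp
  obtain ⟨τ, h11⟩ := hit hk (Y := Y) (n := w ^ j * m' + 0)
    (x := ((w : ℝ) / u) ^ j * lam * (k ^ l) ^ t) (C := |C0|) (b := b0 - (l * t : ℕ))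
    (by rw [mul_assoc, h10]; linarith) (by rw [mul_assoc, h10]; linarith)
    (by rw [h9]; simp) (by
      rw [div_le_iff₀' hwu] at hT
      refine hT.trans ?_
      gcongr
      exact_mod_cast ht.trans (Nat.lt_pow_self hK).le)
  exact ⟨τ, _, h8, h11⟩

lemma Sys.pos [Finite S] (h : Sys p q u w a) (hk : 2 ≤ k) (hσ : Aut k σ) (ha : Dz σ a)
    (hinf : ∀ N, ∃ n, N ≤ n ∧ a n) (hU : ∀ M ρ, 0 < M → Up (ap a M ρ) D) : 0 < D := by
  have h1 : Pre k a := by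
    by_cases hp : p ∣ k
    · exact h.pre_dvd hk hσ ha hinf hp
    · exact h.pre_cop hk hσ ha hinf ((Nat.Prime.coprime_iff_not_dvd h.pp).2 hp).symm
  have h2 : ∀ s, ∃ M ρ, 0 < M ∧ ∀ y, 1 ≤ y → σ y = s → ap a M ρ y := by
    intro s
    by_cases hs : ∃ Y, 1 ≤ Y ∧ σ Y = s
    · obtain ⟨Y, hY, rfl⟩ := hs
      obtain ⟨τ, n, a1, a2, a3⟩ := h1 Y hY
      obtain ⟨j, rfl⟩ := Nat.exists_eq_add_of_le a2
      rw [mul_add_one] at a3
      exact ⟨k ^ τ, j, by positivity, fun y _ e => ha.det hσ τ j (by omega) _ _ e.symm a1⟩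
    · exact ⟨1, 0, one_pos, fun y h1 h2 => absurd ⟨y, h1, h2⟩ hs⟩
  choose M ρ h3 h4 using h2
  exact pos_of_cover (fun s => hU (M s) (ρ s) (h3 s)) fun y hy => ⟨σ y, h4 _ y hy rfl⟩

end Pool.Agent.P.MP_05c0aa_nt
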